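import Pool.Agent.Lib_helper33.MS.Api

namespace Pool.Agent.MS.It

open Cardinal Set Filter Pool.Agent.Lib_helper27

/-- BDL. Boundedness on the low levels. -/
theorem bdl_pr {P : Type} [Preorder P] {Ω : Type} [LinearOrder Ω] [WellFoundedLT Ω] {c : ℕ → Ω}
    {l : ℕ} (hc : Cards c l) (hcl : Cl P #(Lv c l)) : ∀ m ≤ l + 1, Bdd P c m := by
  intro m hm D hD p g hg
  have hD2 : #D ≤ #(Lv c l) := by
    refine Order.lt_succ_iff.1 ?_
    rw [← hc.succ l le_rfl]
    refine hD.trans_le ?_
    rcases hm.lt_or_eq with h | rfl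
    · exact (hc.init _ _ (hc.mono h)).le
    · exact le_rfl
  obtain ⟨q, hq, h1⟩ := hcl.distr hD2 (fun d => {q | ∃ v, g.r q d v}) p
    (fun d q hq => by
      obtain ⟨r, hr, v, h⟩ := hg d q hq
      exact ⟨r, hr, v, h⟩)
    (fun d q r hr ⟨v, h⟩ => ⟨v, g.mono hr h⟩)
  choose v hv using h1
  have hreg := hc.reg m
  have hinf := hreg.aleph0_le
  -- the values are bounded
  have hb : ∃ x : Lv c m, ∀ d, v d ≤ x := by
    by_contra hcon
    push Not at hcon
    have hlt : ∀ d : D, #{x : Lv c m // x < v d} < #(Lv c m) := by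
      intro d
      refine (mk_le_of_injective (f := fun x : {x : Lv c m // x < v d} =>
        (⟨x.1.1, x.2⟩ : {y : Ω // y < (v d).1})) ?_).trans_lt (hc.init m _ (v d).2)
      intro a b hab
      apply Subtype.ext
      apply Subtype.ext
      exact congrArg (fun z : {y : Ω // y < (v d).1} => z.1) hab
    have h4 := small_iUnion hreg hD (fun d (x : Lv c m) => x < v d) hlt
    have h5 : #(Lv c m) ≤ #{x : Lv c m // ∃ d, x < v d} := by
      refine mk_le_of_injective (f := fun x => ⟨x, hcon x⟩) ?_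
      intro a b hab
      exact congrArg (fun z : {x : Lv c m // ∃ d, x < v d} => z.1) hab
    exact absurd h4 (not_lt.2 h5)
  obtain ⟨x, hx⟩ := hb
  refine ⟨q, hq, x, fun r hr d w hw => ?_⟩
  have : w = v d := g.uniq hw (g.mono hr (hv d))
  rw [this]
  exact hx d

end Pool.Agent.MS.It
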