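import Pool.Agent.Lib_helper33.MS.Api

namespace Pool.Agent.MS.It

open Cardinal Set Filter Pool.Agent.Lib_helper27

variable {E : Lev} {M : ℕ}

/-- MTR. The master condition is a code with trivial projection. -/
theorem mtr_pr (K : Crit E M) {m' : K.Y → P E} (hm : K.Mas m') :
    IsCode K m' m' ∧ ∀ p, p ≤ pr K m' := by
  have h0 : ∀ y, m' y M = top E M := fun y => coord_of_res (by omega) (hm.res y)
  have h1 : ∀ y ζ ξ (a : A E M) v, ¬ (m' y M).r ζ ξ a v := by
    intro y ζ ξ a v h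
    rw [h0 y] at h
    exact top_r h
  obtain ⟨β, _, hmin⟩ := WellFounded.has_min (wellFounded_lt (α := E.Ω)) Set.univ ⟨E.c M, trivial⟩
  refine ⟨⟨Eventually.of_forall fun y => le_rfl, β, ?_, Eventually.of_forall fun y => ⟨?_, ?_⟩⟩, ?_⟩
  · obtain ⟨x, hx, _⟩ := bds_pr E M (I := Empty) (by simpa using E.kpos M) (fun i => i.elim)
      (fun i => i.elim)
    exact (not_lt.1 (hmin x trivial)).trans_lt hx
  · intro ξ hξ
    exact (hmin ξ trivial hξ).elim
  · intro ξ _ a v h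
    exact h1 _ _ _ _ _ h
  · intro p
    have hsg : ∀ ξ a r, ¬ sg K m' ξ a r := by
      intro ξ a r h
      obtain ⟨y, v, h2, _⟩ := h.exists
      exact h1 _ _ _ _ _ h2
    rw [le_pr_iff]
    refine ⟨?_, ?_, ?_⟩
    · obtain ⟨y, hy⟩ := (aC_spec K m').exists
      rw [← hy, res_eq_of_le (by omega) (hm.res y)]
      exact le_top' _
    · intro ζ ξ v a _ h
      obtain ⟨y, h2⟩ := Eventually.exists h
      exact (h1 _ _ _ _ _ h2).elim
    · rintro j hj ζ ξ v b _ ⟨ξ0, r, h2, _⟩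
      obtain ⟨c, _, h3⟩ := Loc.exists h2
      exact (hsg _ _ _ h3).elim

end Pool.Agent.MS.It
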