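import Pool.Agent.Lib_helper33.MS.Api

namespace Pool.Agent.MS.It

open Cardinal Set Filter Pool.Agent.Lib_helper27

variable {E : Lev} {M : ℕ}

/-- KEB. The part of `h` below a point of level `M + 1`. -/
theorem keb_pr (K : Crit E M) (h : K.Y → P E) (γ : E.Ω) (hγ : γ < E.c (M + 1)) :
    ∀ᶠ y in K.U, ∀ ζ < γ, ∀ (ξ : E.Ω) (a : A E M) (v : E.Ω),
      (bC K h).r ζ ξ a v ↔ (h y M).r ζ ξ a v := by
  have hinf := E.kinf (M + 1)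
  have hs : #(({z : E.Ω // z < γ} × Lv E.c M) × (A E M × {z : E.Ω // z < γ})) < E.κ (M + 1) := by
    simp only [mk_prod, lift_id]
    exact mul_lt_of_lt hinf (mul_lt_of_lt hinf (E.kinit _ hγ) (E.klt (by omega)))
      (mul_lt_of_lt hinf (size E M) (E.kinit _ hγ))
  have h1 := K.comp _ (fun i y => (bC K h).r i.1.1.1 i.1.2.1 i.2.1 i.2.2.1 ↔
    (h y M).r i.1.1.1 i.1.2.1 i.2.1 i.2.2.1) hs (by
      rintro ⟨⟨⟨ζ, hζ⟩, ⟨ξ, hξ⟩⟩, ⟨a, ⟨v, hv⟩⟩⟩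
      by_cases h2 : (bC K h).r ζ ξ a v
      · exact Eventually.mono h2 fun y h3 => ⟨fun _ => h3, fun _ => h2⟩
      · have h3 : ∀ᶠ y in K.U, ¬ (h y M).r ζ ξ a v := Ultrafilter.eventually_not.2 h2
        exact h3.mono fun y h4 => ⟨fun h5 => (h2 h5).elim, fun h5 => (h4 h5).elim⟩)
  filter_upwards [h1] with y h2 ζ hζ ξ a v
  constructor
  · intro h3
    have h4 := (bC K h).val h3
    exact (h2 ⟨⟨⟨ζ, hζ⟩, ⟨ξ, h4.2.2⟩⟩, ⟨a, ⟨v, h4.1.trans hζ⟩⟩⟩).1 h3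
  · intro h3
    have h4 := (h y M).val h3
    exact (h2 ⟨⟨⟨ζ, hζ⟩, ⟨ξ, h4.2.2⟩⟩, ⟨a, ⟨v, h4.1.trans hζ⟩⟩⟩).2 h3

end Pool.Agent.MS.It
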