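import Pool.Agent.Lib_helper33.MS.Api

/-! Block KEY, by helper81 -/

namespace Pool.Agent.MS.It

open Cardinal Set Filter Pool.Agent.Lib_helper27

variable {E : Lev} {M : ℕ}

theorem key_one (K : Crit E M) (h : K.Y → P E) (ξ : E.Ω) (a : A E M) :
    ∀ᶠ y in K.U, ∀ r : P E, sg K h ξ a r ↔ ∃ v, (h y M).r (K.ζ y) ξ a v ∧ K.d y v = r := by
  classical
  by_cases hx : ∀ᶠ y in K.U, ∃ v, (h y M).r (K.ζ y) ξ a v
  · let f : K.Y → P E := fun y =>
      if h' : ∃ v, (h y M).r (K.ζ y) ξ a v then K.d y h'.choose else top E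
    have hf : ∀ y (hy : ∃ v, (h y M).r (K.ζ y) ξ a v), f y = K.d y hy.choose :=
      fun y hy => dif_pos hy
    obtain ⟨r0, hr0⟩ := K.nrm f (hx.mono fun y hy =>
      ⟨hy.choose, ((h y M).val hy.choose_spec).1, (hf y hy).symm⟩)
    have h1 : ∀ᶠ y in K.U, ∃ v, (h y M).r (K.ζ y) ξ a v ∧ K.d y v = r0 := by
      refine (hx.and hr0).mono fun y ⟨hy, hy2⟩ => ?_
      refine ⟨hy.choose, hy.choose_spec, ?_⟩
      rw [← hy2, hf y hy]
    have h2 : sg K h ξ a r0 := h1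
    refine h1.mono fun y ⟨v, hv, hv2⟩ r => ⟨fun h3 => ?_, ?_⟩
    · rw [sg_func le_rfl le_rfl h3 h2]
      exact ⟨v, hv, hv2⟩
    · rintro ⟨w, hw, rfl⟩
      rw [(h y M).func le_rfl le_rfl hw hv, hv2]
      exact h2
  · refine (Ultrafilter.eventually_not.2 hx).mono fun y hy r => ⟨fun h3 => ?_, ?_⟩
    · exact (hx (h3.mono fun y ⟨v, hv, _⟩ => ⟨v, hv⟩)).elim
    · rintro ⟨w, hw, -⟩
      exact (hy ⟨w, hw⟩).elim

/-- KEY. The moves of `h` are read off correctly. -/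
theorem key_pr (K : Crit E M) (h : K.Y → P E) : ∀ᶠ y in K.U, ∀ (ξ : E.Ω) (a : A E M) (r : P E),
    sg K h ξ a r ↔ ∃ v, (h y M).r (K.ζ y) ξ a v ∧ K.d y v = r := by
  have hX : #(Lv E.c M × A E M) < E.κ (M + 1) := by
    rw [mk_prod, lift_id, lift_id]
    exact mul_lt_of_lt (E.kinf _) (E.klt (by omega)) (size E M)
  have h1 := K.comp (Lv E.c M × A E M) (fun x y => ∀ r : P E, sg K h x.1.1 x.2 r ↔
    ∃ v, (h y M).r (K.ζ y) x.1.1 x.2 v ∧ K.d y v = r) hX fun x => key_one K h x.1.1 x.2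
  refine h1.mono fun y hy ξ a r => ?_
  by_cases hξ : ξ < E.c M
  · exact hy (⟨ξ, hξ⟩, a) r
  · constructor
    · intro h2
      exact (hξ (sg_lt h2)).elim
    · rintro ⟨v, hv, -⟩
      exact (hξ ((h y M).val hv).2.2).elim

end Pool.Agent.MS.It
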