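import Pool.Agent.Lib_helper33.MS.Api

namespace Pool.Agent.MS.It

open Cardinal Set Filter Pool.Agent.Lib_helper27

variable {E : Lev} {M : ℕ}

/-- RNC. Comparison of runs. -/
theorem rnc_pr (μ μ' : Mv E M) (a0 : A E (M + 1))
    (h1 : ∀ a ≤ a0, ∀ ξ r, μ.φ a ξ r → Loc a (fun b => μ'.φ b ξ r))
    (h2 : ∀ a ≤ a0, ∀ ξ r, μ.φ a ξ r → ∀ η < ξ, Loc a (fun b => ∃ s, μ.φ b η s))
    {j : ℕ} (hj : M + 1 ≤ j) {ζ ξ : E.Ω} {b : A E j} (hb : rs (M + 1) b ≤ a0) {v : E.Ω}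
    (h : RunR μ j ζ ξ b v) : Loc b (fun b' => RunR μ' j ζ ξ b' v) := by
  obtain ⟨ξ0, r, h3, h4, h5⟩ := h
  intro b1 hb1
  have hr1 := rs_mono (M + 1) hb1
  obtain ⟨a, ha, h6⟩ := (h1 _ (hr1.trans hb) _ _ (μ.mono hr1 h3)).exists
  obtain ⟨b2, hb2, h7⟩ := exists_ins hj ha
  refine ⟨b2, hb2, ξ0, r, ?_, (r j).mono (hb2.trans hb1) h4, ?_⟩
  · rw [h7]
    exact h6
  · intro η hη b' hb' r' v' h8 h9
    have hr' : rs (M + 1) b' ≤ rs (M + 1) b := rs_mono _ ((hb'.trans hb2).trans hb1)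
    obtain ⟨a1, ha1, s, h10⟩ := (h2 _ (hr'.trans hb) _ _ (μ.mono hr' h3) η hη).exists
    obtain ⟨a2, ha2, h11⟩ := (h1 _ ((ha1.trans hr').trans hb) _ _ h10).exists
    have h12 : s = r' := μ'.func le_rfl (ha2.trans ha1) h11 h8
    subst h12
    obtain ⟨b'', hb'', h13⟩ := exists_ins hj ha1
    refine h5 η hη b'' (((hb''.trans hb').trans hb2).trans hb1) s v' ?_ ((s j).mono hb'' h9)
    rw [h13]
    exact h10

end Pool.Agent.MS.It
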