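import Pool.Agent.Lib_helper33.MS.Api
import Pool.Agent.Lib_helper33.MI.RNC
import Pool.Agent.Lib_helper33.MI.KEY
import Pool.Agent.Lib_helper33.MI.KEB

/-! Block PLE, by helper5 -/

/-!
# PLE
-/

namespace Pool.Agent.MS.It

open Cardinal Set Filter Pool.Agent.Lib_helper27

variable {E : Lev} {M : ℕ}

/-- Replace the first component. -/
private theorem ple_mk_le {n : ℕ} {a : A E (n + 1)} {c : A E n} (hc : c ≤ fs a) :
    mk c (sn a) ≤ a :=
  A_le_def.2 ⟨hc, fun _ _ _ _ _ h => Loc.pure fun _ hb => (sn a).mono hb h⟩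

/-- PLE. -/
theorem ple_pr (K : Crit E M) {m' : K.Y → P E} (hm : K.Mas m') {h : K.Y → P E}
    (hh : IsCode K m' h) : ∀ᶠ y in K.U, h y ≤ pr K h := by
  obtain ⟨γ, hγ, δ, _, hsup⟩ := sup_pr (bC K h)
  obtain ⟨β, _, hgap⟩ := hh.gap
  filter_upwards [aC_spec K h, keb_pr K h γ hγ, key_pr K h, hh.le, hgap] with y ha hb hk hl hg
  have hms : h y ≤ ms K y := hl.trans (hm.le y)
  rw [pr, le_glue_iff]
  constructor
  · rw [A_le_def]
    refine ⟨?_, ?_⟩
    · rw [fs_res, fs_mk, ha]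
    · intro ζ ξ v a _ hr
      rw [sn_mk] at hr
      have h1 : (h y M).r ζ ξ a v := (hb ζ (hsup ζ ξ a v hr).1 ξ a v).1 hr
      exact Loc.pure fun c hc => (h y M).mono hc h1
  · intro j hj ζ ξ v b hbj hr
    rw [Run_r hj] at hr
    have hrs : rs (M + 1) b ≤ res (M + 1) (h y) := by
      have h1 := rs_mono (M + 1) hbj
      rwa [rs_res hj] at h1
    have hrnc := rnc_pr (muS K h) (muY K y) (res (M + 1) (h y)) ?_ ?_ hj hrs hr
    · refine hrnc.bind fun b' hb' h1 => ?_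
      exact (res_succ_le.1 (hms (j + 1))).2 ζ ξ v b' (hb'.trans hbj) ((Run_r hj).2 h1)
    · intro a ha0 ξ' r h1 a' ha'
      obtain ⟨c, hc, h2⟩ := h1 (fs a') (A_le_def.1 ha').1
      obtain ⟨w, h3, h4⟩ := (hk ξ' c r).1 h2
      refine ⟨mk c (sn a'), ple_mk_le hc, w, ?_, h4⟩
      have h5 := (A_le_def.1 (ha'.trans ha0)).2 (K.ζ y) ξ' w c hc
      rw [sn_res] at h5
      exact h5 h3
    · intro a ha0 ξ' r h1 η hη a' ha'
      have hξ : ξ' < β := by
        by_contra hcon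
        rw [not_lt] at hcon
        obtain ⟨c, hc, h2⟩ := h1.exists
        obtain ⟨w, h3, _⟩ := (hk ξ' c r).1 h2
        exact hg.2 ξ' hcon c w h3
      have h5 : fs a' ≤ res M (h y) := (A_le_def.1 (ha'.trans ha0)).1
      obtain ⟨c, hc, w, h6⟩ := hg.1 η (hη.trans hξ) (fs a') h5
      refine ⟨mk c (sn a'), ple_mk_le hc, K.d y w, ?_⟩
      have h7 : sg K h η c (K.d y w) := (hk η c _).2 ⟨w, h6, rfl⟩
      exact Loc.pure fun x hx => sg_mono hx h7

end Pool.Agent.MS.It
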