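import Pool.Agent.Lib_helper33.MI.APP
import Pool.Agent.Lib_helper33.MI.PLE
import Pool.Agent.Lib_helper33.MI.MTR

namespace Pool.Agent.MS.It

open Cardinal Set Filter Pool.Agent.Lib_helper27

variable {E : Lev} {M : ℕ}

/-- A code with a large set of indices. -/
structure Cd (K : Crit E M) (m' : K.Y → P E) : Type where
  h : K.Y → P E
  B : Set K.Y
  code : IsCode K m' h
  large : ∀ᶠ y in K.U, y ∈ B

instance (K : Crit E M) (m' : K.Y → P E) : Preorder (Cd K m') where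
  le x' x := ∀ y ∈ x'.B, y ∈ x.B ∧ x'.h y ≤ x.h y
  le_refl x y hy := ⟨hy, le_rfl⟩
  le_trans x y z h1 h2 u hu := ⟨(h2 u (h1 u hu).1).1, (h1 u hu).2.trans (h2 u (h1 u hu).1).2⟩

/-- The ground system at the critical level `M + 1`. -/
noncomputable def gsys (K : Crit E M) {m' : K.Y → P E} (hm : K.Mas m') {ι : Type} [LinearOrder ι]
    (t : K.Y → {e : ι → Lv E.c (M + 1) // StrictMono e}) :
    GSys (P E) {e : ι → Lv E.c (M + 1) // StrictMono e} where
  C := Cd K m'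
  pi x := pr K x.h
  S p x e := Loc p fun q => ∃ y ∈ x.B, q ≤ x.h y ∧ t y = e
  S_mono hq h := h.mono hq
  S_reg h := h.bind fun q _ h' => h'
  S_le := by
    intro p x x' e h1 h2
    exact h2.imp fun q _ ⟨y, hy, h3, h4⟩ => ⟨y, (h1 y hy).1, h3.trans (h1 y hy).2, h4⟩
  ne := by
    intro p x hp
    obtain ⟨h', h1, h2, h3⟩ := app_pr K hm x.code hp
    obtain ⟨y, hy, h4, h5⟩ := (x.large.and (h2.and (ple_pr K hm h1))).exists
    exact ⟨h' y, h5.trans h3, t y, Loc.pure fun q hq => ⟨y, hy, hq.trans h4, rfl⟩⟩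
  inh := ⟨⟨m', Set.univ, (mtr_pr K hm).1, by simp⟩, (mtr_pr K hm).2⟩

end Pool.Agent.MS.It
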