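import Pool.Agent.Lib_helper33.MS.Api
import Pool.Agent.Lib_helper33.MI.Gs

/-! Block CLO, by helper94 -/

/-!
# CLO
-/

namespace Pool.Agent.MS.It

open Cardinal Set Filter Pool.Agent.Lib_helper27

variable {E : Lev} {M : ℕ}

-- CLO starts here

/-- CLO. -/
theorem clo_pr (K : Crit E M) {m' : K.Y → P E} (hm : K.Mas m') {ι : Type} [LinearOrder ι]
    (t : K.Y → {e : ι → Lv E.c (M + 1) // StrictMono e})
    (ht : ∀ y, ∀ F ∈ K.T y, IsNm F → ∀ i i', i < i' → ∀ q ≤ m' y, ∀ v < E.c (M + 1),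
        F q ((t y).1 i).1 v → v < ((t y).1 i').1) :
    (gsys K hm t).Close := by
  intro H p hH x hx
  let F : P E → E.Ω → E.Ω → Prop := fun q u v =>
    ∃ (hu : u < E.c (M + 1)) (hv : v < E.c (M + 1)), H.r q ⟨u, hu⟩ ⟨v, hv⟩
  have hF : IsNm F := by
    refine ⟨?_, ?_⟩
    · rintro q r u v hrq ⟨hu, hv, h⟩
      exact ⟨hu, hv, H.mono hrq h⟩
    · rintro q u v w ⟨hu, hv, h⟩ ⟨hu', hw, h'⟩
      have := H.uniq h h'
      exact congrArg Subtype.val this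
  have hx1 : ∀ᶠ y in K.U, y ∈ x.B := x.large
  have hx2 : ∀ᶠ y in K.U, x.h y ≤ m' y := x.code.le
  have hx3 : ∀ᶠ y in K.U, F ∈ K.T y := K.hT F
  let k : Cd K m' := ⟨x.h, {y | y ∈ x.B ∧ x.h y ≤ m' y ∧ F ∈ K.T y}, x.code,
    hx1.and (hx2.and hx3)⟩
  refine ⟨p, le_rfl, k, ?_, hx, ?_⟩
  · intro y hy
    exact ⟨hy.1, le_rfl⟩
  · intro r hr e he i i' hi v hv
    have he' : Loc r fun q => ∃ y ∈ k.B, q ≤ k.h y ∧ t y = e := he
    obtain ⟨q, hq, y, hy, hqy, hty⟩ := he'.exists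
    have hy1 : x.h y ≤ m' y := hy.2.1
    have hy2 : F ∈ K.T y := hy.2.2
    have h1 : F q ((t y).1 i).1 v.1 := by
      rw [hty]
      exact ⟨(e.1 i).2, v.2, H.mono hq hv⟩
    have h2 := ht y F hy2 hF i i' hi q (hqy.trans hy1) v.1 v.2 h1
    rw [hty] at h2
    exact h2

end Pool.Agent.MS.It
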