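import Pool.Agent.Lib_helper33.MS.Api

/-! Block CNV, by helper76 -/

/-!
# CNV. From ground systems to systems
-/

namespace Pool.Agent.MS.It

open Cardinal Set Filter Pool.Agent.Lib_helper27

variable {E : Lev} {M : ℕ}

section cnv

variable {P : Type} [Preorder P] {T : Type}

/-- A constant name for a code. -/
private def cnvC {C : Type} (k0 : C) : FN P Unit C where
  r _ _ k := k = k0
  uniq h h' := h.trans h'.symm
  mono _ h := h
  reg h := h.const

private def cnvGood (G : GSys P T) (p : P) (H : FN P Unit G.C) : Prop :=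
  Loc p fun q => ∃ k, H.r q () k ∧ q ≤ G.pi k

private def cnvLe (G : GSys P T) (p : P) (H' H : FN P Unit G.C) : Prop :=
  H' = H ∨ Loc p fun q => ∃ k' k, H'.r q () k' ∧ H.r q () k ∧ k' ≤ k

private def cnvS (G : GSys P T) (p : P) (H : FN P Unit G.C) (t : T) : Prop :=
  Loc p fun q => ∃ k, H.r q () k ∧ G.S q k t

private theorem cnvLe_trans {G : GSys P T} {p : P} {h h' h'' : FN P Unit G.C}
    (h1 : cnvLe G p h'' h') (h2 : cnvLe G p h' h) : cnvLe G p h'' h := by
  rcases h1 with rfl | h1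
  · exact h2
  · rcases h2 with rfl | h2
    · exact Or.inr h1
    · right
      intro q hq
      obtain ⟨r, hr, k'', k', hk'', hk', hle⟩ := h1 q hq
      obtain ⟨s, hs, k1, k, hk1, hk, hle'⟩ := h2 r (hr.trans hq)
      have h3 : k1 = k' := h'.uniq hk1 (h'.mono hs hk')
      subst h3
      exact ⟨s, hs.trans hr, k'', k, h''.mono hs hk'', hk, hle.trans hle'⟩

private theorem cnvS_le {G : GSys P T} {p : P} {h h' : FN P Unit G.C} {t : T}
    (h1 : cnvLe G p h' h) (h2 : cnvS G p h' t) : cnvS G p h t := by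
  rcases h1 with rfl | h1
  · exact h2
  · intro q hq
    obtain ⟨r, hr, k', k, hk', hk, hle⟩ := h1 q hq
    obtain ⟨s, hs, k1, hk1, hS⟩ := h2 r (hr.trans hq)
    have h3 : k1 = k' := h'.uniq hk1 (h'.mono hs hk')
    subst h3
    exact ⟨s, hs.trans hr, k, h.mono hs hk, G.S_le hle hS⟩

/-- The system of the names for codes. -/
private def cnvSys (G : GSys P T) : Sys P T where
  C := FN P Unit G.C
  good := cnvGood G
  le := cnvLe G
  S := cnvS G
  good_mono hq h := Loc.mono h hq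
  good_reg h := Loc.bind h fun _ _ h' => h'
  le_mono hq h := by
    rcases h with h | h
    · exact Or.inl h
    · exact Or.inr (Loc.mono h hq)
  le_reg := by
    intro p h h' hl
    by_cases he : h' = h
    · exact Or.inl he
    · exact Or.inr (hl.bind fun q _ h2 => h2.resolve_left he)
  le_refl _ _ := Or.inl rfl
  le_trans h1 h2 := cnvLe_trans h1 h2
  S_mono hq h := Loc.mono h hq
  S_reg h := Loc.bind h fun _ _ h' => h'
  S_le h1 h2 := cnvS_le h1 h2
  ne := by
    intro p h hg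
    obtain ⟨q, hq, k, hk, hqk⟩ := Loc.exists hg
    obtain ⟨r, hr, t, ht⟩ := G.ne hqk
    exact ⟨r, hr.trans hq, t, Loc.pure fun s hs => ⟨k, h.mono (hs.trans hr) hk, G.S_mono hs ht⟩⟩
  inh := by
    obtain ⟨k0, hk0⟩ := G.inh
    exact ⟨cnvC k0, fun p => Loc.pure fun q _ => ⟨k0, rfl, hk0 q⟩⟩

private theorem cnv_S_const {G : GSys P T} {p : P} {k : G.C} {t : T}
    (h : (cnvSys G).S p (cnvC k) t) : G.S p k t := by
  refine G.S_reg (Loc.imp h ?_)
  rintro q _ ⟨k', hk', hS⟩
  have h1 : k' = k := hk'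
  rw [← h1]
  exact hS

private theorem cnv_good_const {G : GSys P T} {p : P} {k : G.C} (h : p ≤ G.pi k) :
    (cnvSys G).good p (cnvC k) := Loc.pure fun q hq => ⟨k, rfl, hq.trans h⟩

private theorem cnv_le_const {G : GSys P T} {p : P} {k k' : G.C} {H : FN P Unit G.C}
    (h : k' ≤ k) (hH : H.r p () k) : (cnvSys G).le p (cnvC k') H :=
  Or.inr (Loc.pure fun q hq => ⟨k', k, rfl, H.mono hq hH, h⟩)

private theorem cnv_S_of {G : GSys P T} {p : P} {k : G.C} {H : FN P Unit G.C} {t : T}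
    (hH : H.r p () k) (h : G.S p k t) : (cnvSys G).S p H t :=
  Loc.pure fun q hq => ⟨k, H.mono hq hH, G.S_mono hq h⟩

end cnv

/-- CNV. From ground systems to systems. -/
theorem cnv_pr {P : Type} [Preorder P] {Ω : Type} [LinearOrder Ω] {c : ℕ → Ω} {j n : ℕ}
    (G : GSys P (En c j n)) {θ κ μ κ' μ' θ' : Cardinal.{0}} (hθ : θ < θ') (hκ : κ < κ') (hμ : μ < μ')
    (hcl : Cl P θ) (h1 : G.Closed θ') (h2 : G.Dec κ' μ') (h3 : G.Close) :
    ∃ S : Sys P (En c j n), S.Closed θ ∧ S.Dec κ μ ∧ S.Close := by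
  classical
  refine ⟨cnvSys G, ?_, ?_, ?_⟩
  · -- closure
    intro I _ _ hI p h hgood hle
    obtain ⟨F, hF1, hF2⟩ := exists_mix (P := P) (D := Unit) (Z := G.C)
      (fun q _ k => ∃ ki : I → G.C, (∀ i, (h i).r q () (ki i)) ∧ (∀ i, k ≤ ki i) ∧ q ≤ G.pi k)
      (by
        rintro q r _ k hr ⟨ki, ha, hb, hc⟩
        exact ⟨ki, fun i => (h i).mono hr (ha i), hb, hr.trans hc⟩)
    have key : Loc p fun q => ∃ k, F.r q () k ∧
        ∃ ki : I → G.C, (∀ i, (h i).r q () (ki i)) ∧ (∀ i, k ≤ ki i) ∧ q ≤ G.pi k := by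
      intro q hq
      obtain ⟨r, hr, hD⟩ := Cl.distr hcl hI
        (fun i => {r : P | ∃ k, (h i).r r () k ∧ r ≤ G.pi k}) q
        (fun i s hs => by
          obtain ⟨r, hr, k, hk, hrk⟩ := hgood i s (hs.trans hq)
          exact ⟨r, hr, k, hk, hrk⟩)
        (by
          rintro i s r hr ⟨k, hk, hsk⟩
          exact ⟨k, (h i).mono hr hk, hr.trans hsk⟩)
      choose ki hki1 hki2 using hD
      have hanti : Antitone ki := by
        intro i i' hii
        rcases (cnvSys G).le_mono (hr.trans hq) (hle i i' hii) with he | hL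
        · have he' : ki i' = ki i := by
            refine (h i).uniq ?_ (hki1 i)
            have := hki1 i'
            rw [he] at this
            exact this
          exact he'.le
        · obtain ⟨s, hs, k', k, hk', hk, hkk⟩ := Loc.exists hL
          have e1 : k' = ki i' := (h i').uniq hk' ((h i').mono hs (hki1 i'))
          have e2 : k = ki i := (h i).uniq hk ((h i).mono hs (hki1 i))
          rw [← e1, ← e2]
          exact hkk
      obtain ⟨k, hk1, hk2⟩ := h1 I (hI.trans_lt hθ) ki hanti r hki2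
      obtain ⟨s, hs, z, hz⟩ := hF2 r () ⟨k, ki, hki1, hk1, hk2⟩
      obtain ⟨s', hs', hz'⟩ := (hF1 s () z hz).exists
      exact ⟨s', hs'.trans (hs.trans hr), z, F.mono hs' hz, hz'⟩
    refine ⟨F, ?_, fun i => Or.inr ?_⟩
    · refine key.imp ?_
      rintro q _ ⟨k, hk, ki, _, _, hqk⟩
      exact ⟨k, hk, hqk⟩
    · refine key.imp ?_
      rintro q _ ⟨k, hk, ki, ha, hb, _⟩
      exact ⟨k, ki i, hk, ha i, hb i⟩
  · -- decision
    intro U Z hU hZ H p h hgood hdef
    obtain ⟨q0, hq0, k0, hk0, hq0k⟩ := Loc.exists hgood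
    obtain ⟨q, hq, k, hk, hqk, g, hg, hgS⟩ := h2 U Z (hU.trans_lt hκ) (hZ.trans_lt hμ) H q0 k0 hq0k
      (fun q hq t ht u => hdef q (hq.trans hq0) t (cnv_S_of (h.mono hq hk0) ht) u)
    refine ⟨q, hq.trans hq0, cnvC k, cnv_good_const hqk, cnv_le_const hk (h.mono hq hk0), g, hg, ?_⟩
    intro r hr t ht u z hz
    exact hgS r hr t (cnv_S_const ht) u z hz
  · -- closure under functions
    intro H p hH h hgood
    obtain ⟨q0, hq0, k0, hk0, hq0k⟩ := Loc.exists hgood
    obtain ⟨q, hq, k, hk, hqk, hS⟩ := h3 H q0 (FN.Tot.mono hH hq0) k0 hq0k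
    refine ⟨q, hq.trans hq0, cnvC k, cnv_good_const hqk, cnv_le_const hk (h.mono hq hk0), ?_⟩
    intro r hr t ht i i' hi v hv
    exact hS r hr t (cnv_S_const ht) i i' hi v hv

end Pool.Agent.MS.It
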