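import Pool.Agent.Lib_helper33.MS.Api

/-! Block COL, by helper93 -/

namespace Pool.Agent.MS.It

open Cardinal Set Filter Pool.Agent.Lib_helper27

variable {E : Lev} {M : ℕ}

private theorem col_small (n : ℕ) (q : P E) (x d y : E.Ω) :
    #{z : E.Ω × E.Ω // ∃ (a : A E n) (v : E.Ω), (q n).r z.1 z.2 a v ∨ (z.1 = x ∧ z.2 = d ∧ v = y ∧
      a ≤ res n q ∧ ∀ a' ≤ a, ∀ w, ¬ (q n).r x d a' w)} < E.κ n := by
  have h2 : #{z : E.Ω × E.Ω // z = (x, d)} < E.κ n := by
    have : #{z : E.Ω × E.Ω // z = (x, d)} = 1 := by simp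
    rw [this]
    exact one_lt_aleph0.trans_le (E.kinf n)
  refine small_imp ?_ (small_or (E.kinf n) (q n).small h2)
  rintro z ⟨a, v, h | ⟨h3, h4, -⟩⟩
  · exact Or.inl ⟨a, v, h⟩
  · exact Or.inr (Prod.ext h3 h4)

/-- add the value `y` at `(x, d)` to the coordinate `n` of `q` -/
private def col_add (n : ℕ) (q : P E) (x d y : E.Ω) (hyx : y < x) (hx : x < E.c (n + 1))
    (hd : d < E.c n) : Rl E n (A E n) where
  r z u a v := (q n).r z u a v ∨ (z = x ∧ u = d ∧ v = y ∧ a ≤ res n q ∧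
    ∀ a' ≤ a, ∀ w, ¬ (q n).r x d a' w)
  mono := by
    rintro z u a b v hb (h | ⟨h1, h2, h3, h4, h5⟩)
    · exact Or.inl ((q n).mono hb h)
    · exact Or.inr ⟨h1, h2, h3, hb.trans h4, fun a' ha' => h5 a' (ha'.trans hb)⟩
  func := by
    rintro z u a b c v w ha hb (h | ⟨h1, h2, h3, h4, h5⟩) (h' | ⟨h1', h2', h3', h4', h5'⟩)
    · exact (q n).func ha hb h h'
    · subst h1' h2'
      exact (h5' c hb v ((q n).mono ha h)).elim
    · subst h1 h2
      exact (h5 c ha w ((q n).mono hb h')).elim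
    · rw [h3, h3']
  val := by
    rintro z u a v (h | ⟨h1, h2, h3, h4, h5⟩)
    · exact (q n).val h
    · rw [h1, h2, h3]
      exact ⟨hyx, hx, hd⟩
  small := col_small n q x d y

private theorem col_ext (n : ℕ) (q : P E) (x d y : E.Ω) (hyx : y < x) (hx : x < E.c (n + 1))
    (hd : d < E.c n) (hno : ∀ a ≤ res n q, ∀ w, ¬ (q n).r x d a w) :
    ∃ q' ≤ q, (q' n).r x d (res n q') y := by
  refine ⟨glue (n + 1) (mk (res n q) (col_add n q x d y hyx hx hd)) q, ?_, ?_⟩
  · apply glue_le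
    refine A_le_def.2 ⟨le_rfl, fun ζ ξ v a _ h => ?_⟩
    exact Loc.pure fun b hb => Or.inl ((q n).mono hb h)
  · have h1 : res (n + 1) (glue (n + 1) (mk (res n q) (col_add n q x d y hyx hx hd)) q) =
        mk (res n q) (col_add n q x d y hyx hx hd) := res_glue _ _
    have h2 : (glue (n + 1) (mk (res n q) (col_add n q x d y hyx hx hd)) q) n =
        col_add n q x d y hyx hx hd := congrArg sn h1
    have h3 : res n (glue (n + 1) (mk (res n q) (col_add n q x d y hyx hx hd)) q) = res n q :=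
      congrArg fs h1
    rw [h2, h3]
    exact Or.inr ⟨rfl, rfl, rfl, le_rfl, hno⟩

private theorem col_F (n : ℕ) (r : P E) (x d w : E.Ω) (h : (r n).r x d (res n r) w) :
    ∀ s ≤ r, Loc (res n s) (fun b => (s n).r x d b w) := by
  intro s hs b hb
  have h1 : res n s ≤ res n r := res_mono hs
  have h2 := (res_succ_le.1 (hs (n + 1))).2 x d w b hb ((r n).mono (hb.trans h1) h)
  obtain ⟨c, hc, h3⟩ := h2.exists
  exact ⟨c, hc, h3⟩

/-- COL. The points below `c (n + 1)` are collapsed to `c n`. -/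
theorem col_pr (n : ℕ) (x : E.Ω) (hx0 : ∃ y, y < x) (hx : x < E.c (n + 1)) :
    ∃ F : FN (P E) (Lv E.c n) {y : E.Ω // y < x},
      (∀ p, F.Tot p) ∧ ∀ p y, Loc p (fun q => ∃ d, F.r q d y) := by
  let F : FN (P E) (Lv E.c n) {y : E.Ω // y < x} :=
    { r := fun p d y => Loc p (fun q => Loc (res n q) (fun a => (q n).r x d.1 a y.1))
      uniq := by
        intro p d z z' h h'
        obtain ⟨q, hq, h1⟩ := h.exists
        obtain ⟨q', hq', h2⟩ := h' q hq
        obtain ⟨a, ha, h3⟩ := h1 (res n q') (res_mono hq')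
        obtain ⟨c, hc, h4⟩ := ((res_succ_le.1 (hq' (n + 1))).2 x d.1 z.1 a ha h3).exists
        obtain ⟨c', hc', h5⟩ := h2 c (hc.trans ha)
        exact Subtype.ext ((q' n).func hc' le_rfl h4 h5)
      mono := fun hq h => h.mono hq
      reg := fun h => h.bind fun q _ h => h }
  have hF : ∀ (q : P E) (d : Lv E.c n) (y : {y : E.Ω // y < x}),
      (q n).r x d.1 (res n q) y.1 → F.r q d y := by
    intro q d y h
    exact Loc.pure (col_F n q x d.1 y.1 h)
  refine ⟨F, ?_, ?_⟩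
  · intro p d q _
    by_cases h : ∃ a ≤ res n q, ∃ w, (q n).r x d.1 a w
    · obtain ⟨a, ha, w, h1⟩ := h
      refine ⟨glue n a q, glue_le ha, ⟨w, ((q n).val h1).1⟩, hF _ _ _ ?_⟩
      rw [res_glue, glue_ge le_rfl]
      exact h1
    · push Not at h
      obtain ⟨y, hy⟩ := hx0
      obtain ⟨q', hq', h1⟩ := col_ext n q x d.1 y hy hx d.2 h
      exact ⟨q', hq', ⟨y, hy⟩, hF _ _ _ h1⟩
  · intro p y q _
    have hd : ∃ d : Lv E.c n, ∀ a v, ¬ (q n).r x d.1 a v := by
      by_contra hcon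
      push Not at hcon
      have h1 : #(Lv E.c n) ≤ #{z : E.Ω × E.Ω // ∃ a v, (q n).r z.1 z.2 a v} := by
        refine mk_le_of_injective (f := fun d : Lv E.c n =>
          (⟨(x, d.1), hcon d⟩ : {z : E.Ω × E.Ω // ∃ a v, (q n).r z.1 z.2 a v})) ?_
        intro a b hab
        apply Subtype.ext
        exact congrArg (fun z : {z : E.Ω × E.Ω // ∃ a v, (q n).r z.1 z.2 a v} => z.1.2) hab
      exact absurd (q n).small (not_lt.2 h1)
    obtain ⟨d, hd⟩ := hd
    obtain ⟨q', hq', h1⟩ := col_ext n q x d.1 y.1 y.2 hx d.2 (fun a _ w => hd a w)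
    exact ⟨q', hq', d, hF _ _ _ h1⟩

end Pool.Agent.MS.It
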