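import Pool.Agent.Lib_helper33.MS.Api

/-! Block CRT, by helper76 -/

/-!
# CRT. The data from the supercompact cardinal
-/

namespace Pool.Agent.MS.It

open Cardinal Set Filter Pool.Agent.Lib_helper27

variable {E : Lev} {M : ℕ}

private theorem crt_aux (E : Lev) (M : ℕ)
    (y : Set (P E ⊕ (E.Ω ⊕ (P E → E.Ω → E.Ω → Prop)))) (hy : #y < E.κ (M + 1)) :
    ∃ ζ < E.c (M + 1), ∃ d : E.Ω → P E,
      (∀ z < E.c (M + 1), Sum.inr (Sum.inl z) ∈ y → z < ζ) ∧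
      (∀ r, Sum.inl r ∈ y → ∃ v < ζ, d v = r) ∧
      (∀ v, Sum.inl (d v) ∈ y ∨ d v = top E) := by
  classical
  -- the set of the conditions in `y`
  have hS : #{r : P E // Sum.inl r ∈ y} < E.κ (M + 1) := by
    refine (mk_le_of_injective (f := fun r : {r : P E // Sum.inl r ∈ y} => (⟨Sum.inl r.1, r.2⟩ : y))
      ?_).trans_lt hy
    intro a b hab
    apply Subtype.ext
    exact Sum.inl_injective (congrArg (fun z : y => z.1) hab)
  obtain ⟨⟨g, hg⟩⟩ : #{r : P E // Sum.inl r ∈ y} ≤ #(Lv E.c (M + 1)) := hS.le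
  obtain ⟨β, hβ, h1⟩ := bds_pr E (M + 1) hS (fun s => (g s).1) (fun s => (g s).2)
  have hI : #{z : E.Ω // z < E.c (M + 1) ∧
      (Sum.inr (Sum.inl z) : P E ⊕ (E.Ω ⊕ (P E → E.Ω → E.Ω → Prop))) ∈ y} < E.κ (M + 1) := by
    refine (mk_le_of_injective (f := fun r : {z : E.Ω // z < E.c (M + 1) ∧
      (Sum.inr (Sum.inl z) : P E ⊕ (E.Ω ⊕ (P E → E.Ω → E.Ω → Prop))) ∈ y} =>
        (⟨Sum.inr (Sum.inl r.1), r.2.2⟩ : y)) ?_).trans_lt hy
    intro a b hab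
    apply Subtype.ext
    exact Sum.inl_injective (Sum.inr_injective (congrArg (fun z : y => z.1) hab))
  obtain ⟨γ, hγ, h2⟩ := bds_pr E (M + 1) hI (fun s => s.1) (fun s => s.2.1)
  refine ⟨max β γ, max_lt hβ hγ,
    fun v => if h : ∃ s : {r : P E // Sum.inl r ∈ y}, (g s).1 = v then h.choose.1 else top E,
    fun z hz hzy => (h2 ⟨z, hz, hzy⟩).trans_le (le_max_right _ _), ?_, ?_⟩
  · intro r hr
    refine ⟨(g ⟨r, hr⟩).1, (h1 ⟨r, hr⟩).trans_le (le_max_left _ _), ?_⟩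
    have hex : ∃ s : {r : P E // Sum.inl r ∈ y}, (g s).1 = (g ⟨r, hr⟩).1 := ⟨⟨r, hr⟩, rfl⟩
    simp only
    rw [dif_pos hex]
    have h3 := hg (Subtype.ext hex.choose_spec)
    exact congrArg (fun z : {r : P E // Sum.inl r ∈ y} => z.1) h3
  · intro v
    by_cases hex : ∃ s : {r : P E // Sum.inl r ∈ y}, (g s).1 = v
    · left
      simp only
      rw [dif_pos hex]
      exact hex.choose.2
    · right
      simp only
      rw [dif_neg hex]

/-- CRT. The data from the supercompact cardinal. -/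
theorem crt_pr (E : Lev) (M : ℕ) (hS : Supercompact (E.κ (M + 1))) : Nonempty (Crit E M) := by
  classical
  obtain ⟨U, hcomp, hfine, hsm, hnrm⟩ := hS.2 (P E ⊕ (E.Ω ⊕ (P E → E.Ω → E.Ω → Prop)))
  -- choose the data for small `y`
  have hc0 : ∃ z : E.Ω, z < E.c (M + 1) := ⟨E.c 0, E.mono (by omega)⟩
  obtain ⟨z0, hz0⟩ := hc0
  have hall : ∀ y : Set (P E ⊕ (E.Ω ⊕ (P E → E.Ω → E.Ω → Prop))),
      ∃ ζ : E.Ω, ∃ d : E.Ω → P E, ζ < E.c (M + 1) ∧ (#y < E.κ (M + 1) →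
        (∀ z < E.c (M + 1), Sum.inr (Sum.inl z) ∈ y → z < ζ) ∧
        (∀ r, Sum.inl r ∈ y → ∃ v < ζ, d v = r) ∧
        (∀ v, Sum.inl (d v) ∈ y ∨ d v = top E)) := by
    intro y
    by_cases hy : #y < E.κ (M + 1)
    · obtain ⟨ζ, hζ, d, h1, h2, h3⟩ := crt_aux E M y hy
      exact ⟨ζ, d, hζ, fun _ => ⟨h1, h2, h3⟩⟩
    · exact ⟨z0, fun _ => top E, hz0, fun h => (hy h).elim⟩
  choose ζ d hζ hprop using hall
  have hsm' : ∀ᶠ y : Set (P E ⊕ (E.Ω ⊕ (P E → E.Ω → E.Ω → Prop))) in U,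
      #y < E.κ (M + 1) := hsm
  have hf : ∀ x : P E ⊕ (E.Ω ⊕ (P E → E.Ω → E.Ω → Prop)),
      ∀ᶠ y : Set (P E ⊕ (E.Ω ⊕ (P E → E.Ω → E.Ω → Prop))) in U, x ∈ y := hfine
  refine ⟨{
    Y := Set (P E ⊕ (E.Ω ⊕ (P E → E.Ω → E.Ω → Prop)))
    U := U
    comp := ?_
    ζ := ζ
    d := d
    T := fun y => {F | #y < E.κ (M + 1) ∧ Sum.inr (Sum.inr F) ∈ y}
    hζ := hζ
    hζ2 := ?_
    hd := ?_
    nrm := ?_
    hT := ?_
    Tsmall := ?_ }⟩
  · intro I Q hI hQ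
    have h1 := hcomp I (fun i => {y | Q i y}) hI hQ
    have h2 : (⋂ i, {y | Q i y}) = {y | ∀ i, Q i y} := by ext y; simp
    rw [h2] at h1
    exact h1
  · intro z hz
    filter_upwards [hsm', hf (Sum.inr (Sum.inl z))] with y h1 h2
    exact (hprop y h1).1 z hz h2
  · intro r
    filter_upwards [hsm', hf (Sum.inl r)] with y h1 h2
    exact (hprop y h1).2.1 r h2
  · intro f hfy
    have h1 : ∀ᶠ y : Set (P E ⊕ (E.Ω ⊕ (P E → E.Ω → E.Ω → Prop))) in U,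
        Sum.inl (f y) ∈ y := by
      filter_upwards [hsm', hf (Sum.inl (top E)), hfy] with y h1 h2 h3
      obtain ⟨v, _, hv⟩ := h3
      rcases (hprop y h1).2.2 v with h4 | h4
      · rw [← hv]
        exact h4
      · rw [← hv, h4]
        exact h2
    obtain ⟨x, hx⟩ := hnrm (fun y => Sum.inl (f y)) h1
    have hx' : ∀ᶠ y : Set (P E ⊕ (E.Ω ⊕ (P E → E.Ω → E.Ω → Prop))) in U,
        Sum.inl (f y) = x := hx
    obtain ⟨y0, hy0⟩ := hx'.exists
    refine ⟨f y0, hx'.mono fun y hy => ?_⟩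
    exact Sum.inl_injective (hy.trans hy0.symm)
  · intro F
    filter_upwards [hsm', hf (Sum.inr (Sum.inr F))] with y h1 h2
    exact ⟨h1, h2⟩
  · intro y
    by_cases hy : #y < E.κ (M + 1)
    · refine (mk_le_of_injective (f := fun F : {F : P E → E.Ω → E.Ω → Prop |
        #y < E.κ (M + 1) ∧ Sum.inr (Sum.inr F) ∈ y} => (⟨Sum.inr (Sum.inr F.1), F.2.2⟩ : y))
        ?_).trans_lt hy
      intro a b hab
      apply Subtype.ext
      exact Sum.inr_injective (Sum.inr_injective (congrArg (fun z : y => z.1) hab))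
    · have : IsEmpty {F : P E → E.Ω → E.Ω → Prop |
          #y < E.κ (M + 1) ∧ Sum.inr (Sum.inr F) ∈ y} := ⟨fun F => hy F.2.1⟩
      rw [mk_eq_zero]
      exact E.kpos _

end Pool.Agent.MS.It
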