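import Pool.Agent.Lib_helper33.MS.Api

/-! Block FIL, by helper94 -/

/-!
# FIL
-/

namespace Pool.Agent.MS.It

open Cardinal Set Filter Pool.Agent.Lib_helper27

variable {E : Lev} {M : ℕ}

private theorem fil_coord {n : ℕ} (a : A E (n + 1)) (r : P E) : glue (n + 1) a r n = sn a := by
  have h := congrArg sn (res_glue a r)
  exact h

private theorem fil_res {n : ℕ} (a : A E (n + 1)) (r : P E) : res n (glue (n + 1) a r) = fs a := by
  have h := congrArg fs (res_glue a r)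
  exact h

/-- The name `q` with the value `v` added at the places `(z, x)`, `x < β`, where `q` is undefined. -/
private def fil_q (q : Rl E M (A E M)) (a0 : A E M) (z β : E.Ω) (hz : z < E.c (M + 1))
    (hβ : β < E.c M) (vy : E.Ω) : Rl E M (A E M) where
  r ζ ξ a v := q.r ζ ξ a v ∨ (ζ = z ∧ ξ < β ∧ v = vy ∧ v < z ∧ a ≤ a0 ∧
    ∀ a' ≤ a, ∀ w, ¬ q.r z ξ a' w)
  mono := by
    rintro ζ ξ a b v hb (h | ⟨h1, h2, h3, h4, h5, h6⟩)
    · exact Or.inl (q.mono hb h)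
    · exact Or.inr ⟨h1, h2, h3, h4, hb.trans h5, fun a' ha' => h6 a' (ha'.trans hb)⟩
  func := by
    rintro ζ ξ a b c v w ha hb (h | ⟨h1, h2, h3, h4, h5, h6⟩) (h' | ⟨h1', h2', h3', h4', h5', h6'⟩)
    · exact q.func ha hb h h'
    · subst h1'
      exact (h6' c hb v (q.mono ha h)).elim
    · subst h1
      exact (h6 c ha w (q.mono hb h')).elim
    · rw [h3, h3']
  val := by
    rintro ζ ξ a v (h | ⟨h1, h2, h3, h4, h5, h6⟩)
    · exact q.val h
    · subst h1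
      exact ⟨h4, hz, h2.trans hβ⟩
  small := by
    have h1 : #{x : E.Ω × E.Ω // x.1 = z ∧ x.2 < β} < E.κ M := by
      refine (mk_le_of_injective (f := fun x : {x : E.Ω × E.Ω // x.1 = z ∧ x.2 < β} =>
        (⟨x.1.2, x.2.2⟩ : {y : E.Ω // y < β})) ?_).trans_lt (E.kinit M hβ)
      rintro ⟨⟨x1, x2⟩, hx1, hx2⟩ ⟨⟨y1, y2⟩, hy1, hy2⟩ hxy
      have h3 : x2 = y2 := congrArg (fun z : {y : E.Ω // y < β} => z.1) hxy
      have h4 : x1 = y1 := by
        have h5 : x1 = z := hx1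
        have h6 : y1 = z := hy1
        rw [h5, h6]
      subst h3
      subst h4
      rfl
    refine small_imp ?_ (small_or (E.kinf M) q.small h1)
    rintro x ⟨a, v, h | ⟨h1, h2, h3, h4, h5, h6⟩⟩
    · exact Or.inl ⟨a, v, h⟩
    · exact Or.inr ⟨h1, h2⟩

/-- FIL. Fill the gaps. -/
theorem fil_pr (K : Crit E M) {m' : K.Y → P E} (k : K.Y → P E) (hk : ∀ᶠ y in K.U, k y ≤ m' y) :
    ∃ h', IsCode K m' h' ∧ ∀ᶠ y in K.U, h' y ≤ k y := by
  classical
  have h1 : ∀ y, ∃ δ : Lv E.c M, ∀ ζ ξ a v, (k y M).r ζ ξ a v → ξ < δ.1 := by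
    intro y
    obtain ⟨γ, hγ, δ, hδ, h⟩ := sup_pr (k y M)
    exact ⟨⟨δ, hδ⟩, fun ζ ξ a v hr => (h ζ ξ a v hr).2⟩
  choose δ hδ using h1
  obtain ⟨β, hβ⟩ := K.const (Z := Lv E.c M) (E.klt (by omega)) δ
  have h2 : ∀ y, ∃ vy : E.Ω, (∃ v < K.ζ y, K.d y v = top E) → vy < K.ζ y := by
    intro y
    by_cases h : ∃ v < K.ζ y, K.d y v = top E
    · obtain ⟨v, hv, _⟩ := h
      exact ⟨v, fun _ => hv⟩
    · exact ⟨K.ζ y, fun h' => (h h').elim⟩
  choose vy hvy using h2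
  let Q : K.Y → Rl E M (A E M) := fun y =>
    fil_q (k y M) (res M (k y)) (K.ζ y) β.1 (K.hζ y) β.2 (vy y)
  let h' : K.Y → P E := fun y => glue (M + 1) (mk (res M (k y)) (Q y)) (k y)
  have hc : ∀ y, h' y M = Q y := by
    intro y
    show glue (M + 1) (mk (res M (k y)) (Q y)) (k y) M = Q y
    rw [fil_coord, sn_mk]
  have hr : ∀ y, res M (h' y) = res M (k y) := by
    intro y
    show res M (glue (M + 1) (mk (res M (k y)) (Q y)) (k y)) = res M (k y)
    rw [fil_res, fs_mk]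
  have hle : ∀ y, h' y ≤ k y := by
    intro y
    refine glue_le (A_le_def.2 ⟨?_, ?_⟩)
    · simp
    · intro ζ ξ v a ha h
      refine Loc.pure fun b hb => ?_
      exact Or.inl ((k y M).mono hb h)
  refine ⟨h', ⟨hk.mono fun y hy => (hle y).trans hy, β.1, β.2, ?_⟩, Eventually.of_forall hle⟩
  filter_upwards [hβ, K.hd (top E)] with y hy hy2
  constructor
  · intro ξ hξ
    rw [hr, hc]
    intro a ha
    by_cases h : ∃ a' ≤ a, ∃ w, (k y M).r (K.ζ y) ξ a' w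
    · obtain ⟨a', ha', w, hw⟩ := h
      exact ⟨a', ha', w, Or.inl hw⟩
    · push Not at h
      exact ⟨a, le_rfl, vy y, Or.inr ⟨rfl, hξ, rfl, hvy y hy2, ha, h⟩⟩
  · intro ξ hξ a v h
    rw [hc] at h
    rcases h with h | ⟨_, h2, _⟩
    · have h3 := hδ y _ _ _ _ h
      rw [hy] at h3
      exact absurd h3 (not_lt.2 hξ)
    · exact absurd h2 (not_lt.2 hξ)


end Pool.Agent.MS.It
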