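import Pool.Agent.Lib_helper33.MS.Api
import Pool.Agent.Lib_helper33.MI.RNC
import Pool.Agent.Lib_helper33.MI.KEY
import Pool.Agent.Lib_helper33.MI.KEB

/-! Block PMO, by helper5 -/

/-!
# PMO
-/

namespace Pool.Agent.MS.It

open Cardinal Set Filter Pool.Agent.Lib_helper27

variable {E : Lev} {M : ℕ}

/-- Replace the first component. -/
private theorem pmo_mk_le {n : ℕ} {a : A E (n + 1)} {c : A E n} (hc : c ≤ fs a) :
    mk c (sn a) ≤ a :=
  A_le_def.2 ⟨hc, fun _ _ _ _ _ h => Loc.pure fun _ hb => (sn a).mono hb h⟩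

/-- PMO. -/
theorem pmo_pr (K : Crit E M) {m' : K.Y → P E} (hm : K.Mas m') {h h' : K.Y → P E}
    (hh : IsCode K m' h) (hh' : IsCode K m' h') (hle : ∀ᶠ y in K.U, h' y ≤ h y) :
    pr K h' ≤ pr K h := by
  obtain ⟨β, _, hgap⟩ := hh.gap
  have hres : res (M + 1) (pr K h') = mk (aC K h') (bC K h') := by rw [pr, res_glue]
  conv_rhs => rw [pr]
  rw [le_glue_iff]
  constructor
  · rw [hres, A_le_def]
    refine ⟨?_, ?_⟩
    · obtain ⟨y, h1, h2, h3⟩ := ((aC_spec K h).and ((aC_spec K h').and hle)).exists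
      rw [fs_mk, fs_mk, ← h1, ← h2]
      exact res_mono h3
    · intro ζ ξ v a ha hr
      rw [sn_mk] at hr ⊢
      rw [fs_mk] at ha
      obtain ⟨γ, hγ, δ, _, hsup⟩ := sup_pr (bC K h)
      have hζ := (hsup ζ ξ a v hr).1
      obtain ⟨y, h1, h2, h3, h4⟩ :=
        ((keb_pr K h γ hγ).and ((keb_pr K h' γ hγ).and ((aC_spec K h').and hle))).exists
      have h5 : (h y M).r ζ ξ a v := (h1 ζ hζ ξ a v).1 hr
      have h6 := (res_succ_le.1 (h4 (M + 1))).2 ζ ξ v a (by rw [h3]; exact ha) h5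
      exact h6.imp fun c _ h7 => (h2 ζ hζ ξ c v).2 h7
  · intro j hj ζ ξ v b hbj hr
    rw [Run_r hj] at hr
    have hj' : pr K h' j = Run (muS K h') j := by rw [pr, glue_ge hj]
    have hrs : rs (M + 1) b ≤ mk (aC K h') (bC K h') := by
      have h1 := rs_mono (M + 1) hbj
      rwa [rs_res hj, hres] at h1
    obtain ⟨y, k1, k2, k3, k4, k5⟩ :=
      ((key_pr K h).and ((key_pr K h').and ((aC_spec K h').and (hle.and hgap)))).exists
    have hrnc := rnc_pr (muS K h) (muS K h') (mk (aC K h') (bC K h')) ?_ ?_ hj hrs hr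
    · rw [hj']
      exact hrnc.imp fun b' _ h1 => (Run_r hj).2 h1
    · intro a ha0 ξ' r h1 a' ha'
      obtain ⟨c, hc, h2⟩ := h1 (fs a') (A_le_def.1 ha').1
      obtain ⟨w, h3, h4⟩ := (k1 ξ' c r).1 h2
      have h5 : fs a' ≤ aC K h' := (A_le_def.1 (ha'.trans ha0)).1
      have h6 := (res_succ_le.1 (k4 (M + 1))).2 (K.ζ y) ξ' w c (by rw [k3]; exact hc.trans h5) h3
      obtain ⟨c', hc', h7⟩ := h6.exists
      refine ⟨mk c' (sn a'), pmo_mk_le (hc'.trans hc), ?_⟩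
      have h8 : sg K h' ξ' c' r := (k2 ξ' c' r).2 ⟨w, h7, h4⟩
      exact Loc.pure fun x hx => sg_mono hx h8
    · intro a ha0 ξ' r h1 η hη a' ha'
      have hξ : ξ' < β := by
        by_contra hcon
        rw [not_lt] at hcon
        obtain ⟨c, hc, h2⟩ := h1.exists
        obtain ⟨w, h3, _⟩ := (k1 ξ' c r).1 h2
        exact k5.2 ξ' hcon c w h3
      have h5 : fs a' ≤ res M (h y) := by
        refine (A_le_def.1 (ha'.trans ha0)).1.trans ?_
        rw [fs_mk, ← k3]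
        exact res_mono k4
      obtain ⟨c, hc, w, h6⟩ := k5.1 η (hη.trans hξ) (fs a') h5
      refine ⟨mk c (sn a'), pmo_mk_le hc, K.d y w, ?_⟩
      have h7 : sg K h η c (K.d y w) := (k1 η c _).2 ⟨w, h6, rfl⟩
      exact Loc.pure fun x hx => sg_mono hx h7

end Pool.Agent.MS.It
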