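import Pool.Agent.Lib_helper33.MS.Api

namespace Pool.Agent.MS.It

open Cardinal Set Filter Pool.Agent.Lib_helper27

variable {E : Lev} {M : ℕ}

/-- GLB. Greatest lower bounds. -/
theorem glb_pr (n : ℕ) {I : Type} [LinearOrder I] (hI : #I < E.κ n) (i0 : I) (p : I → P E)
    (hp : Antitone p) (hres : ∀ i, res n (p i) = res n (p i0)) :
    ∃ q : P E, res n q = res n (p i0) ∧ (∀ i, q ≤ p i) ∧
      (∀ j (b : A E j), (∀ i, b ≤ res j (p i)) → b ≤ res j q) ∧
      ∀ j, n ≤ j → ∀ ζ ξ b v, (q j).r ζ ξ b v ↔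
        (∀ i, b ≤ res j (p i)) ∧ ∃ i, (p i j).r ζ ξ b v := by
  classical
  let R : (j : ℕ) → n ≤ j → Rl E j (A E j) := fun j hj =>
    { r := fun ζ ξ b v => (∀ i, b ≤ res j (p i)) ∧ ∃ i, (p i j).r ζ ξ b v
      mono := fun hb ⟨h1, i, h2⟩ => ⟨fun i => hb.trans (h1 i), i, (p i j).mono hb h2⟩
      func := by
        rintro ζ ξ a b c v w ha hb ⟨h1, i, h2⟩ ⟨h3, i', h4⟩
        rcases le_total i i' with hii | hii
        · have h5 := (res_succ_le.1 (hp hii (j + 1))).2 ζ ξ v c (ha.trans (h1 i'))
            ((p i j).mono ha h2)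
          obtain ⟨d, hd, h6⟩ := h5.exists
          exact (p i' j).func le_rfl (hd.trans hb) h6 h4
        · have h5 := (res_succ_le.1 (hp hii (j + 1))).2 ζ ξ w c (hb.trans (h3 i))
            ((p i' j).mono hb h4)
          obtain ⟨d, hd, h6⟩ := h5.exists
          exact ((p i j).func le_rfl (hd.trans ha) h6 h2).symm
      val := fun ⟨_, i, h2⟩ => (p i j).val h2
      small := by
        refine small_imp ?_ (small_iUnion (E.kreg j) (hI.trans_le (E.kle hj))
          (fun i (x : E.Ω × E.Ω) => ∃ a v, (p i j).r x.1 x.2 a v) fun i => (p i j).small)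
        rintro x ⟨a, v, _, i, h⟩
        exact ⟨i, a, v, h⟩ }
  let q : P E := fun j => if hj : n ≤ j then R j hj else p i0 j
  have hq : ∀ j (hj : n ≤ j), q j = R j hj := fun j hj => dif_pos hj
  have hq2 : ∀ j < n, q j = p i0 j := fun j hj => dif_neg (by omega)
  have hr : res n q = res n (p i0) := res_congr hq2
  have hform : ∀ j, n ≤ j → ∀ ζ ξ b v, (q j).r ζ ξ b v ↔
      (∀ i, b ≤ res j (p i)) ∧ ∃ i, (p i j).r ζ ξ b v := by
    intro j hj ζ ξ b v
    rw [hq j hj]
  have hle : ∀ j i, res j q ≤ res j (p i) := by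
    intro j
    rcases le_total j n with hj | hj
    · intro i
      rw [res_eq_of_le hj hr, res_eq_of_le hj (hres i)]
    · induction j, hj using Nat.le_induction with
      | base =>
        intro i
        rw [hr, hres i]
      | succ j hj ih =>
        intro i
        refine res_succ_le.2 ⟨ih i, fun ζ ξ v a ha h => Loc.pure fun c hc => ?_⟩
        rw [hform j hj]
        exact ⟨fun i' => (hc.trans ha).trans (ih i'), i, (p i j).mono hc h⟩
  refine ⟨q, hr, fun i j => hle j i, ?_, hform⟩
  intro j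
  rcases le_total j n with hj | hj
  · intro b hb
    rw [res_eq_of_le hj hr]
    exact hb i0
  · induction j, hj using Nat.le_induction with
    | base =>
      intro b hb
      rw [hr]
      exact hb i0
    | succ j hj ih =>
      intro b hb
      refine A_le_def.2 ⟨ih (fs b) fun i => (A_le_def.1 (hb i)).1, ?_⟩
      intro ζ ξ v a ha h
      rw [sn_res, hform j hj] at h
      obtain ⟨h1, i, h2⟩ := h
      exact (A_le_def.1 (hb i)).2 ζ ξ v a ha h2

end Pool.Agent.MS.It
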