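import Pool.Agent.Lib_helper33.MS.Api

namespace Pool.Agent.MS.It

open Cardinal Set Filter Pool.Agent.Lib_helper27

variable {E : Lev} {M : ℕ}

/-- MIX. Strengthening of the tail below a condition of stage `n`. -/
theorem mix_pr (n : ℕ) {p s : P E} (hs : s ≤ p) :
    ∃ r ≤ p, res n r = res n p ∧ glue n (res n s) r ≤ s := by
  classical
  let R : (j : ℕ) → n ≤ j → Rl E j (A E j) := fun j hj =>
    { r := fun ζ ξ b v => (rs n b ≤ res n s ∧ (s j).r ζ ξ b v) ∨
        ((¬ ∃ d, d ≤ rs n b ∧ d ≤ res n s) ∧ (p j).r ζ ξ b v)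
      mono := by
        rintro ζ ξ a b v hb (⟨h1, h2⟩ | ⟨h1, h2⟩)
        · exact Or.inl ⟨(rs_mono n hb).trans h1, (s j).mono hb h2⟩
        · exact Or.inr ⟨fun ⟨d, h3, h4⟩ => h1 ⟨d, h3.trans (rs_mono n hb), h4⟩, (p j).mono hb h2⟩
      func := by
        rintro ζ ξ a b c v w ha hb (⟨h1, h2⟩ | ⟨h1, h2⟩) (⟨h3, h4⟩ | ⟨h3, h4⟩)
        · exact (s j).func ha hb h2 h4
        · exact (h3 ⟨rs n c, rs_mono n hb, (rs_mono n ha).trans h1⟩).elim
        · exact (h1 ⟨rs n c, rs_mono n ha, (rs_mono n hb).trans h3⟩).elim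
        · exact (p j).func ha hb h2 h4
      val := by
        rintro ζ ξ a v (⟨_, h2⟩ | ⟨_, h2⟩)
        · exact (s j).val h2
        · exact (p j).val h2
      small := by
        refine small_imp ?_ (small_or (E.kinf j) (s j).small (p j).small)
        rintro x ⟨a, v, ⟨_, h⟩ | ⟨_, h⟩⟩
        · exact Or.inl ⟨a, v, h⟩
        · exact Or.inr ⟨a, v, h⟩ }
  let r : P E := fun j => if hj : n ≤ j then R j hj else p j
  have hr1 : ∀ j (hj : n ≤ j), r j = R j hj := fun j hj => dif_pos hj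
  have hr2 : ∀ j < n, r j = p j := fun j hj => dif_neg (by omega)
  have hres : res n r = res n p := res_congr hr2
  have hform : ∀ j, n ≤ j → ∀ ζ ξ b v, (r j).r ζ ξ b v ↔
      (rs n b ≤ res n s ∧ (s j).r ζ ξ b v) ∨
        ((¬ ∃ d, d ≤ rs n b ∧ d ≤ res n s) ∧ (p j).r ζ ξ b v) := by
    intro j hj ζ ξ b v
    rw [hr1 j hj]
  -- below `s` the condition `r` is below `s`
  have key : ∀ j, n ≤ j → ∀ b, b ≤ res j r → rs n b ≤ res n s → b ≤ res j s := by
    intro j hj
    induction j, hj using Nat.le_induction with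
    | base =>
      intro b _ h
      rw [rs_self] at h
      exact h
    | succ j hj ih =>
      intro b hb h
      rw [A_le_def, fs_res, sn_res] at hb
      rw [A_le_def, fs_res, sn_res]
      rw [← rs_fs hj] at h
      refine ⟨ih _ hb.1 h, fun ζ ξ v a ha h2 => ?_⟩
      refine hb.2 ζ ξ v a ha ((hform j hj _ _ _ _).2 (Or.inl ⟨(rs_mono n ha).trans h, h2⟩))
  have hle : ∀ j, n ≤ j → res j r ≤ res j p := by
    intro j hj
    induction j, hj using Nat.le_induction with
    | base => rw [hres]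
    | succ j hj ih =>
      refine res_succ_le.2 ⟨ih, fun ζ ξ v a ha h c hc => ?_⟩
      by_cases hcomp : ∃ d, d ≤ rs n c ∧ d ≤ res n s
      · obtain ⟨d, h1, h2⟩ := hcomp
        obtain ⟨c', hc', h3⟩ := exists_ins hj h1
        have h4 : rs n c' ≤ res n s := by rw [h3]; exact h2
        have h5 : c' ≤ res j s := key j hj c' ((hc'.trans hc).trans ha) h4
        obtain ⟨e, he, h6⟩ := ((res_succ_le.1 (hs (j + 1))).2 ζ ξ v c' h5
          ((p j).mono (hc'.trans hc) h)).exists
        exact ⟨e, he.trans hc', (hform j hj _ _ _ _).2 (Or.inl ⟨(rs_mono n he).trans h4, h6⟩)⟩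
      · exact ⟨c, le_rfl, (hform j hj _ _ _ _).2 (Or.inr ⟨hcomp, (p j).mono hc h⟩)⟩
  refine ⟨r, ?_, hres, ?_⟩
  · intro j
    rcases le_total n j with hj | hj
    · exact hle j hj
    · exact res_le_of_le hj (hle n le_rfl)
  · have hs' : res n s ≤ res n r := by rw [hres]; exact hs n
    intro j
    rcases le_total n j with hj | hj
    · refine key j hj _ (glue_le hs' j) ?_
      rw [rs_res hj, res_glue]
    · exact res_le_of_le hj (by rw [res_glue])

end Pool.Agent.MS.It
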