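import Pool.Agent.Lib_helper33.MS.Api

namespace Pool.Agent.MS.It

open Cardinal Set Filter Pool.Agent.Lib_helper27

/-- TDC. Transfinite dependent choice. -/
theorem tdc_pr {I X : Type} [LinearOrder I] [WellFoundedLT I] [Nonempty X]
    (R : (i : I) → ({j : I // j < i} → X) → X → Prop)
    (h : ∀ i (f : {j : I // j < i} → X),
      (∀ j : {j : I // j < i}, R j.1 (fun k => f ⟨k.1, k.2.trans j.2⟩) (f j)) → ∃ x, R i f x) :
    ∃ g : I → X, ∀ i, R i (fun j => g j.1) (g i) := by
  classical
  let step : (i : I) → ((j : I) → j < i → X) → X := fun i f =>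
    if hx : ∃ x, R i (fun j => f j.1 j.2) x then hx.choose else Classical.arbitrary X
  let g : I → X := fun i => WellFounded.fix (wellFounded_lt (α := I)) step i
  have hg : ∀ i, g i = step i fun j _ => g j := fun i => WellFounded.fix_eq _ _ _
  refine ⟨g, fun i => ?_⟩
  induction i using WellFoundedLT.induction with
  | ind i ih =>
    have hex : ∃ x, R i (fun j => g j.1) x := h i (fun j => g j.1) fun j => ih j.1 j.2
    have h1 : g i = hex.choose := by
      rw [hg]
      exact dif_pos hex
    rw [h1]
    exact hex.choose_spec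

end Pool.Agent.MS.It
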