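import Pool.Agent.Lib_helper33.MS.Api
import Pool.Agent.Lib_helper33.MI.TDC
import Pool.Agent.Lib_helper33.MI.GLB
import Pool.Agent.Lib_helper33.MI.MIX

/-! Block RED, by helper93 -/

namespace Pool.Agent.MS.It

open Cardinal Set Filter Pool.Agent.Lib_helper27

variable {E : Lev} {M : ℕ}

/-- RED. Reduction of a dense set to the stage `n`. -/
theorem red_pr (n : ℕ) (hcc : CC E n) (p : P E) (D : Set (P E))
    (hD : ∀ q ∈ D, ∀ r ≤ q, r ∈ D) (hd : ∀ q ≤ p, ∃ r ≤ q, r ∈ D) :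
    ∃ r ≤ p, res n r = res n p ∧ ∀ a ≤ res n p, ∃ b ≤ a, glue n b r ∈ D := by
  by_contra hcon
  have hno : ∀ r ≤ p, res n r = res n p → ∃ a ≤ res n p, ∀ b ≤ a, glue n b r ∉ D := by
    intro r hr hres
    by_contra h
    push Not at h
    exact hcon ⟨r, hr, hres, h⟩
  let R : (i : Lv E.c n) → ({j : Lv E.c n // j < i} → A E n × P E) → A E n × P E → Prop :=
    fun i f x => x.2 ≤ p ∧ res n x.2 = res n p ∧ x.1 ≤ res n p ∧ glue n x.1 x.2 ∈ D ∧
      ∀ j, x.2 ≤ (f j).2 ∧ ¬ ∃ d, d ≤ x.1 ∧ d ≤ (f j).1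
  have : Nonempty (A E n × P E) := ⟨(res n p, p)⟩
  obtain ⟨g, hg⟩ := tdc_pr (I := Lv E.c n) (X := A E n × P E) R (by
    intro i f hf
    -- the greatest lower bound of the tails
    have hglb : ∃ r : P E, r ≤ p ∧ res n r = res n p ∧ ∀ j, r ≤ (f j).2 := by
      by_cases hne : Nonempty {j : Lv E.c n // j < i}
      · obtain ⟨j0⟩ := hne
        have hcard : #{j : Lv E.c n // j < i} < E.κ n := by
          refine (mk_le_of_injective (f := fun j : {j : Lv E.c n // j < i} =>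
            (⟨j.1.1, j.2⟩ : {y : E.Ω // y < i.1})) ?_).trans_lt (E.kinit n i.2)
          intro a b hab
          apply Subtype.ext
          apply Subtype.ext
          exact congrArg (fun z : {y : E.Ω // y < i.1} => z.1) hab
        obtain ⟨q, hq1, hq2, -, -⟩ := glb_pr n hcard j0 (fun j => (f j).2) (by
          intro j k hjk
          rcases eq_or_lt_of_le hjk with h | h
          · rw [h]
          · exact ((hf k).2.2.2.2 ⟨j.1, h⟩).1) (fun j => by rw [(hf j).2.1, (hf j0).2.1])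
        refine ⟨q, (hq2 j0).trans (hf j0).1, ?_, hq2⟩
        rw [hq1, (hf j0).2.1]
      · exact ⟨p, le_rfl, rfl, fun j => (hne ⟨j⟩).elim⟩
    obtain ⟨r, hrp, hres, hrf⟩ := hglb
    obtain ⟨a, ha, hab⟩ := hno r hrp hres
    have hinc : ∀ j, ∀ d, d ≤ a → ¬ d ≤ (f j).1 := by
      intro j d hda hdj
      have h1 : glue n d r ≤ glue n (f j).1 (f j).2 :=
        glue_mono hdj (by rw [hres]; exact hda.trans ha) (hrf j)
      exact hab d hda (hD _ (hf j).2.2.2.1 _ h1)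
    have har : glue n a r ≤ r := glue_le (by rw [hres]; exact ha)
    obtain ⟨s, hs, hsD⟩ := hd (glue n a r) (har.trans hrp)
    obtain ⟨r', hr', hres', hg'⟩ := mix_pr n (hs.trans har)
    have hsa : res n s ≤ a := by
      have := res_mono (n := n) hs
      rwa [res_glue] at this
    refine ⟨(res n s, r'), hr'.trans hrp, hres'.trans hres, hsa.trans ha, hD s hsD _ hg', ?_⟩
    intro j
    refine ⟨hr'.trans (hrf j), ?_⟩
    rintro ⟨d, hd1, hd2⟩
    exact hinc j d (hd1.trans hsa) hd2)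
  have hanti : ∀ i j : Lv E.c n, i ≠ j → ¬ ∃ d, d ≤ (g i).1 ∧ d ≤ (g j).1 := by
    intro i j hij
    rcases lt_or_gt_of_ne hij with h | h
    · rintro ⟨d, h1, h2⟩
      exact ((hg j).2.2.2.2 ⟨i, h⟩).2 ⟨d, h2, h1⟩
    · exact ((hg i).2.2.2.2 ⟨j, h⟩).2
  exact lt_irrefl _ (hcc (Lv E.c n) (fun i => (g i).1) hanti)

end Pool.Agent.MS.It
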