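import Pool.Agent.Lib_helper33.MS.Api
import Pool.Agent.Lib_helper33.MI.GLB
import Pool.Agent.Lib_helper33.MI.RED

/-! Block REDJ, by helper93 -/

namespace Pool.Agent.MS.It

open Cardinal Set Filter Pool.Agent.Lib_helper27

variable {E : Lev} {M : ℕ}

/-- REDJ. Reduction of a small family of dense sets to the stage `n`. -/
theorem redJ_pr (n : ℕ) (hcc : CC E n) {J : Type} (hJ : #J < E.κ n) (p : P E) (D : J → Set (P E))
    (hD : ∀ j, ∀ q ∈ D j, ∀ r ≤ q, r ∈ D j) (hd : ∀ j, ∀ q ≤ p, ∃ r ≤ q, r ∈ D j) :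
    ∃ r ≤ p, res n r = res n p ∧ ∀ j, ∀ a ≤ res n p, ∃ b ≤ a, glue n b r ∈ D j := by
  have hcl : Cl {r : P E // r ≤ p ∧ res n r = res n p} #J := by
    intro I _ _ hI f hf
    by_cases hne : Nonempty I
    · obtain ⟨i0⟩ := hne
      obtain ⟨q, hq1, hq2, -, -⟩ := glb_pr n (hI.trans_lt hJ) i0 (fun i => (f i).1)
        (fun i j hij => hf hij) (fun i => by rw [(f i).2.2, (f i0).2.2])
      exact ⟨⟨q, (hq2 i0).trans (f i0).2.1, by rw [hq1, (f i0).2.2]⟩, fun i => hq2 i⟩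
    · exact ⟨⟨p, le_rfl, rfl⟩, fun i => (hne ⟨i⟩).elim⟩
  obtain ⟨q, -, hq⟩ := hcl.distr le_rfl
    (fun j => {r : {r : P E // r ≤ p ∧ res n r = res n p} |
      ∀ a ≤ res n p, ∃ b ≤ a, glue n b r.1 ∈ D j}) ⟨p, le_rfl, rfl⟩ (by
      intro j q _
      obtain ⟨r, hr, hres, h⟩ := red_pr n hcc q.1 (D j) (hD j)
        (fun s hs => hd j s (hs.trans q.2.1))
      rw [q.2.2] at hres h
      exact ⟨⟨r, hr.trans q.2.1, hres⟩, hr, h⟩) (by
      intro j q r hrq hq a ha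
      obtain ⟨b, hb, hbD⟩ := hq a ha
      refine ⟨b, hb, hD j _ hbD _ ?_⟩
      exact glue_mono le_rfl (by rw [r.2.2]; exact hb.trans ha) hrq)
  exact ⟨q.1, q.2.1, q.2.2, hq⟩

end Pool.Agent.MS.It
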