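import Pool.Agent.Lib_helper33.MS.Api
import Pool.Agent.Lib_helper33.MI.Gs
import Pool.Agent.Lib_helper33.MI.REDJ
import Pool.Agent.Lib_helper33.MI.PMO
import Pool.Agent.Lib_helper33.MI.FIL

/-! Block DEC, by helper75 -/

/-!
# DEC. Decision of random functions at the critical level
-/

namespace Pool.Agent.MS.It

open Cardinal Set Filter Pool.Agent.Lib_helper27

variable {E : Lev} {M : ℕ}

theorem dec_pr (K : Crit E M) (hcc : CC E M) {m' : K.Y → P E} (hm : K.Mas m') {ι : Type}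
    [LinearOrder ι] (t : K.Y → {e : ι → Lv E.c (M + 1) // StrictMono e}) :
    (gsys K hm t).Dec (E.κ M) (E.κ (M + 1)) := by
  classical
  intro U Z hU hZ H p h hp hH
  change p ≤ pr K h.h at hp
  obtain ⟨h1, hh1, hle1, hpr1⟩ := app_pr K hm h.code hp
  have hple1 := ple_pr K hm hh1
  -- the reduction at y
  have hex : ∀ y, ∃ k : P E, (y ∈ h.B → h1 y ≤ h.h y → h1 y ≤ pr K h1 →
      (k ≤ h1 y ∧ ∀ u : U, ∀ a ≤ res M (h1 y), ∃ b ≤ a, ∃ z, H.r (glue M b k) (u, t y) z)) := by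
    intro y
    by_cases hy : y ∈ h.B ∧ h1 y ≤ h.h y ∧ h1 y ≤ pr K h1
    · obtain ⟨hy1, hy2, hy3⟩ := hy
      obtain ⟨k, hk1, _, hk3⟩ := redJ_pr M hcc hU (h1 y)
        (fun u => {r : P E | ∃ z, H.r r (u, t y) z})
        (by
          rintro u q ⟨z, hz⟩ r hr
          exact ⟨z, H.mono hr hz⟩)
        (by
          intro u q hq
          have hS : (gsys K hm t).S q h (t y) :=
            Loc.pure fun q' hq' => ⟨y, hy1, (hq'.trans hq).trans hy2, rfl⟩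
          obtain ⟨r, hr, z, hz⟩ := (hH q ((hq.trans hy3).trans hpr1) (t y) hS u).exists
          exact ⟨r, hr, z, hz⟩)
      exact ⟨k, fun _ _ _ => ⟨hk1, hk3⟩⟩
    · exact ⟨h1 y, fun a b c => (hy ⟨a, b, c⟩).elim⟩
  choose k hk using hex
  have hkgood : ∀ᶠ y in K.U, y ∈ h.B ∧ h1 y ≤ h.h y ∧ h1 y ≤ pr K h1 ∧ k y ≤ h1 y ∧
      ∀ u : U, ∀ a ≤ res M (h1 y), ∃ b ≤ a, ∃ z, H.r (glue M b (k y)) (u, t y) z := by
    refine ((h.large.and hle1).and hple1).mono ?_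
    rintro y ⟨⟨g1, g2⟩, g3⟩
    exact ⟨g1, g2, g3, hk y g1 g2 g3⟩
  obtain ⟨h2, hh2, hle2⟩ := fil_pr K (m' := m') k
    ((hkgood.and hh1.le).mono fun y hy => hy.1.2.2.2.1.trans hy.2)
  -- the constant relation
  have hsz : #(U × A E M × Z → Prop) < E.κ (M + 1) := by
    have h3 : #(U × A E M × Z → Prop) = 2 ^ #(U × A E M × Z) := by simp
    rw [h3]
    refine E.kpow M ?_
    have hU' : #U < E.κ (M + 1) := hU.trans (E.klt (by omega))
    rw [mk_prod, lift_id, lift_id, mk_prod, lift_id, lift_id]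
    exact mul_lt_of_lt (E.kinf _) hU' (mul_lt_of_lt (E.kinf _) (size E M) hZ)
  obtain ⟨R', hR'⟩ := K.const hsz
    (fun y => fun x : U × A E M × Z => H.r (glue M x.2.1 (k y)) (x.1, t y) x.2.2)
  let R : U → A E M → Z → Prop := fun u a z => R' (u, a, z)
  have hR : ∀ᶠ y in K.U, ∀ u a z, H.r (glue M a (k y)) (u, t y) z ↔ R u a z :=
    hR'.mono fun y hy u a z => iff_of_eq (congrFun hy (u, a, z))
  have hle21 : ∀ᶠ y in K.U, h2 y ≤ h1 y :=
    (hle2.and hkgood).mono fun y hy => hy.1.trans hy.2.2.2.2.1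
  -- all good indices
  let B2 : Set K.Y := {y | (y ∈ h.B ∧ h1 y ≤ h.h y ∧ h1 y ≤ pr K h1 ∧ k y ≤ h1 y ∧
      ∀ u : U, ∀ a ≤ res M (h1 y), ∃ b ≤ a, ∃ z, H.r (glue M b (k y)) (u, t y) z) ∧
      h2 y ≤ k y ∧ (∀ u a z, H.r (glue M a (k y)) (u, t y) z ↔ R u a z) ∧
      res M (h2 y) = aC K h2}
  have hB2 : ∀ᶠ y in K.U, y ∈ B2 :=
    (((hkgood.and hle2).and hR).and (aC_spec K h2)).mono
      fun y hy => ⟨hy.1.1.1, hy.1.1.2, hy.1.2, hy.2⟩
  let x2 : Cd K m' := ⟨h2, B2, hh2, hB2⟩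
  refine ⟨pr K h2, (pmo_pr K hm hh1 hh2 hle21).trans hpr1, x2, ?_, le_rfl, ?_⟩
  · intro y hy
    exact ⟨hy.1.1, (hy.2.1.trans hy.1.2.2.2.1).trans hy.1.2.1⟩
  -- the name
  have huniq : ∀ (r : P E) (u : U) (z z' : Z) (a a' : A E M), R u a z → res M r ≤ a →
      a ≤ aC K h2 → R u a' z' → res M r ≤ a' → z = z' := by
    intro r u z z' a a' h3 h4 h5 h6 h7
    obtain ⟨y, hy⟩ := hB2.exists
    obtain ⟨_, hy2, hy3, hy4⟩ := hy
    have hrk : res M r ≤ res M (k y) := by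
      refine (h4.trans h5).trans ?_
      rw [← hy4]
      exact res_mono hy2
    have e1 : H.r (glue M (res M r) (k y)) (u, t y) z :=
      H.mono (glue_mono h4 hrk le_rfl) ((hy3 u a z).2 h3)
    have e2 : H.r (glue M (res M r) (k y)) (u, t y) z' :=
      H.mono (glue_mono h7 hrk le_rfl) ((hy3 u a' z').2 h6)
    exact H.uniq e1 e2
  let g : FN (P E) U Z :=
    { r := fun q u z => Loc q (fun r => ∃ a, R u a z ∧ res M r ≤ a ∧ a ≤ aC K h2)
      uniq := by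
        intro q u z z' h3 h4
        obtain ⟨r, hr, a, ha1, ha2, ha3⟩ := h3.exists
        obtain ⟨r', hr', a', ha1', ha2', ha3'⟩ := h4 r hr
        exact huniq r' u z z' a a' ha1 ((res_mono hr').trans ha2) ha3 ha1' ha2'
      mono := by
        intro q r u z hr h3
        exact h3.mono hr
      reg := by
        intro q u z h3
        exact h3.bind fun _ _ h4 => h4 }
  refine ⟨g, ?_, ?_⟩
  · -- totality
    intro u r hr
    obtain ⟨h3, hh3, hle3, hpr3⟩ := app_pr K hm hh2 hr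
    obtain ⟨y, ⟨hy1, hy2⟩, hy3⟩ := ((hB2.and hle3).and (ple_pr K hm hh3)).exists
    obtain ⟨⟨_, _, _, g4, g5⟩, g6, g7, g8⟩ := hy1
    have hb1 : res M (h3 y) ≤ res M (h1 y) := res_mono (hy2.trans (g6.trans g4))
    obtain ⟨b, hb, z, hz⟩ := g5 u _ hb1
    refine ⟨glue M b (h3 y), (glue_le hb).trans (hy3.trans hpr3), z, ?_⟩
    refine Loc.pure fun r'' hr'' => ⟨b, (g7 u b z).1 hz, ?_, ?_⟩
    · have := res_mono (n := M) hr''
      rwa [res_glue] at this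
    · rw [← g8]
      exact hb.trans (res_mono hy2)
  · -- agreement
    intro r hr e hS u z hg
    refine H.reg ?_
    have hS' : Loc r (fun q => ∃ y ∈ B2, q ≤ h2 y ∧ t y = e) := hS
    have hg' : Loc r (fun r => ∃ a, R u a z ∧ res M r ≤ a ∧ a ≤ aC K h2) := hg
    refine hS'.bind ?_
    rintro r1 hr1 ⟨y, hy, hr1y, rfl⟩
    refine (hg'.mono hr1).imp ?_
    rintro r2 hr2 ⟨a, ha1, ha2, ha3⟩
    obtain ⟨_, g6, g7, _⟩ := hy
    exact H.mono (le_glue ((hr2.trans hr1y).trans g6) ha2) ((g7 u a z).2 ha1)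

end Pool.Agent.MS.It
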