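import Pool.Agent.Lib_helper33.MS.Api
import Pool.Agent.Lib_helper33.MI.GLB
import Pool.Agent.Lib_helper33.MI.KEY
import Pool.Agent.Lib_helper33.MI.KEB

/-! Block LIM, by helper75 -/

/-!
# LIM. Limits of codes
-/

namespace Pool.Agent.MS.It

open Cardinal Set Filter Pool.Agent.Lib_helper27

variable {E : Lev} {M : ℕ}

/-- the pointwise limit of a descending sequence of codes -/
private theorem lim_fun (K : Crit E M) {I : Type} [LinearOrder I] (hI : #I < E.κ 0) (i0 : I)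
    (h : I → K.Y → P E) (hd : ∀ i i', i ≤ i' → ∀ᶠ y in K.U, h i' y ≤ h i y) :
    ∃ h' : K.Y → P E, ∀ᶠ y in K.U, (∀ i, h' y ≤ h i y) ∧
      (∀ j (b : A E j), (∀ i, b ≤ res j (h i y)) → b ≤ res j (h' y)) ∧
      ∀ ζ ξ b v, (h' y M).r ζ ξ b v ↔ (∀ i, b ≤ res M (h i y)) ∧ ∃ i, (h i y M).r ζ ξ b v := by
  classical
  have hgood : ∀ᶠ y in K.U, ∀ ii : I × I, ii.1 ≤ ii.2 → h ii.2 y ≤ h ii.1 y := by
    refine K.comp (I × I) _ ?_ ?_
    · rw [mk_prod, lift_id]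
      have h1 : #I < E.κ (M + 1) := hI.trans_le (E.kle (by omega))
      exact mul_lt_of_lt (E.kinf _) h1 h1
    · rintro ⟨i, i'⟩
      by_cases hii : i ≤ i'
      · exact (hd i i' hii).mono fun y hy _ => hy
      · exact Eventually.of_forall fun y hy => (hii hy).elim
  have hex : ∀ y, ∃ q : P E, (∀ ii : I × I, ii.1 ≤ ii.2 → h ii.2 y ≤ h ii.1 y) →
      ((∀ i, q ≤ h i y) ∧ (∀ j (b : A E j), (∀ i, b ≤ res j (h i y)) → b ≤ res j q) ∧
      ∀ ζ ξ b v, (q M).r ζ ξ b v ↔ (∀ i, b ≤ res M (h i y)) ∧ ∃ i, (h i y M).r ζ ξ b v) := by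
    intro y
    by_cases hy : ∀ ii : I × I, ii.1 ≤ ii.2 → h ii.2 y ≤ h ii.1 y
    · obtain ⟨q, _, h2, h3, h4⟩ := glb_pr 0 hI i0 (fun i => h i y) (fun i i' hii => hy (i, i') hii)
        (fun _ => rfl)
      exact ⟨q, fun _ => ⟨h2, h3, h4 M (Nat.zero_le _)⟩⟩
    · exact ⟨h i0 y, fun h => (hy h).elim⟩
  choose h' hh' using hex
  exact ⟨h', hgood.mono fun y hy => hh' y hy⟩

theorem lim_pr (K : Crit E M) {m' : K.Y → P E} (hm : K.Mas m') {I : Type} [LinearOrder I]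
    (hI : #I < E.κ 0) (i0 : I) (h : I → K.Y → P E) (hh : ∀ i, IsCode K m' (h i))
    (hd : ∀ i i', i ≤ i' → ∀ᶠ y in K.U, h i' y ≤ h i y) (p : P E) (hp : ∀ i, p ≤ pr K (h i)) :
    ∃ h', IsCode K m' h' ∧ (∀ i, ∀ᶠ y in K.U, h' y ≤ h i y) ∧ p ≤ pr K h' := by
  classical
  obtain ⟨h', hh'⟩ := lim_fun K hI i0 h hd
  have hIM : #I < E.κ M := hI.trans_le (E.kle (by omega))
  have hIM1 : #I < E.κ (M + 1) := hI.trans_le (E.kle (by omega))
  -- the decided positions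
  choose β hβ hgap using fun i => (hh i).gap
  obtain ⟨β0, hβ0, hβ0'⟩ := bds_pr E M hIM β hβ
  obtain ⟨β', hβ'1, hβ'2, hβ'3⟩ : ∃ β' : E.Ω, β' < E.c M ∧ (∀ i, β i ≤ β') ∧
      ∀ ξ < β', ∃ i, ξ < β i := by
    have hne : {x : E.Ω | ∀ i, β i ≤ x}.Nonempty := ⟨β0, fun i => (hβ0' i).le⟩
    refine ⟨(wellFounded_lt (α := E.Ω)).min _ hne, ?_, ?_, ?_⟩
    · refine lt_of_le_of_lt ?_ hβ0
      exact not_lt.1 ((wellFounded_lt (α := E.Ω)).not_lt_min {x : E.Ω | ∀ i, β i ≤ x}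
        (show β0 ∈ {x : E.Ω | ∀ i, β i ≤ x} from fun i => (hβ0' i).le))
    · exact (wellFounded_lt (α := E.Ω)).min_mem _ hne
    · intro ξ hξ
      by_contra hcon
      push Not at hcon
      exact (wellFounded_lt (α := E.Ω)).not_lt_min {x : E.Ω | ∀ i, β i ≤ x}
        (show ξ ∈ {x : E.Ω | ∀ i, β i ≤ x} from hcon) hξ
  have hgap' : ∀ᶠ y in K.U, ∀ i,
      (∀ ξ < β i, Loc (res M (h i y)) fun a => ∃ v, (h i y M).r (K.ζ y) ξ a v) ∧
      ∀ ξ, β i ≤ ξ → ∀ a v, ¬ (h i y M).r (K.ζ y) ξ a v := K.comp I _ hIM1 hgap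
  -- the restrictions
  have haC : ∀ᶠ y in K.U, ∀ i, res M (h i y) = aC K (h i) :=
    K.comp I _ hIM1 fun i => aC_spec K (h i)
  have hpi : ∀ i, res (M + 1) p ≤ mk (aC K (h i)) (bC K (h i)) ∧ TL (M + 1) p (Run (muS K (h i))) :=
    fun i => le_glue_iff.1 (hp i)
  have hresp : ∀ i, res M p ≤ aC K (h i) := fun i => (A_le_def.1 (hpi i).1).1
  refine ⟨h', ⟨?_, β', hβ'1, ?_⟩, fun i => hh'.mono fun y hy => hy.1 i, ?_⟩
  · exact (hh'.and (hh i0).le).mono fun y hy => (hy.1.1 i0).trans hy.2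
  · refine (hh'.and hgap').mono fun y hy => ⟨fun ξ hξ => ?_, fun ξ hξ a v hr => ?_⟩
    · obtain ⟨i, hi⟩ := hβ'3 ξ hξ
      refine (((hy.2 i).1 ξ hi).mono (res_mono (hy.1.1 i))).imp ?_
      rintro a ha ⟨v, hv⟩
      exact ⟨v, (hy.1.2.2 _ _ _ _).2 ⟨fun i' => ha.trans (res_mono (hy.1.1 i')), i, hv⟩⟩
    · obtain ⟨_, i, hi⟩ := (hy.1.2.2 _ _ _ _).1 hr
      exact (hy.2 i).2 ξ ((hβ'2 i).trans hξ) a v hi
  · refine le_glue_iff.2 ⟨A_le_def.2 ⟨?_, ?_⟩, ?_⟩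
    · rw [fs_mk, fs_res]
      obtain ⟨y, ⟨h1, h2⟩, h3⟩ := ((hh'.and haC).and (aC_spec K h')).exists
      rw [← h3]
      refine h1.2.1 M _ fun i => ?_
      rw [h2 i]
      exact hresp i
    · intro ζ ξ v a ha hr
      rw [sn_mk] at hr
      rw [fs_res] at ha
      rw [sn_res]
      obtain ⟨γ, hγ, δ, hδ, hsup⟩ := sup_pr (bC K h')
      have hζ : ζ < γ := (hsup _ _ _ _ hr).1
      have hkeb : ∀ᶠ y in K.U, ∀ i, ∀ ζ < γ, ∀ (ξ : E.Ω) (a : A E M) (v : E.Ω),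
          (bC K (h i)).r ζ ξ a v ↔ (h i y M).r ζ ξ a v :=
        K.comp I _ hIM1 fun i => keb_pr K (h i) γ hγ
      have hr' : ∀ᶠ y in K.U, (h' y M).r ζ ξ a v := hr
      obtain ⟨y, ⟨h1, h2⟩, h3⟩ := ((hh'.and hkeb).and hr').exists
      obtain ⟨_, i, hi⟩ := (h1.2.2 _ _ _ _).1 h3
      have h4 : (bC K (h i)).r ζ ξ a v := (h2 i ζ hζ ξ a v).2 hi
      exact (A_le_def.1 (hpi i).1).2 ζ ξ v a ha h4
    · intro j hj ζ ξ v b hb hr
      have hMj : M ≤ j := by omega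
      rw [Run_r hj] at hr
      obtain ⟨ξ0, r, hφ, hrj, hcl⟩ := hr
      intro b1 hb1
      have hφ1 : (muS K h').φ (rs (M + 1) b1) ξ0 r := (muS K h').mono (rs_mono _ hb1) hφ
      obtain ⟨a, ha, hsg⟩ := Loc.exists (p := fs (rs (M + 1) b1)) hφ1
      rw [rs_succ] at ha
      have hkey : ∀ᶠ y in K.U, ∀ i, ∀ (ξ : E.Ω) (a : A E M) (r : P E),
          sg K (h i) ξ a r ↔ ∃ v, (h i y M).r (K.ζ y) ξ a v ∧ K.d y v = r :=
        K.comp I _ hIM1 fun i => key_pr K (h i)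
      have hsg' : ∀ᶠ y in K.U, ∃ v, (h' y M).r (K.ζ y) ξ0 a v ∧ K.d y v = r := hsg
      obtain ⟨y, ⟨h1, h2⟩, v0, h3, h4⟩ := ((hh'.and hkey).and hsg').exists
      obtain ⟨_, i, hi⟩ := (h1.2.2 _ _ _ _).1 h3
      have hsgi : sg K (h i) ξ0 a r := (h2 i ξ0 a r).2 ⟨v0, hi, h4⟩
      obtain ⟨b2, hb2, hb2a⟩ := exists_ins hMj ha
      have hrun : RunR (muS K (h i)) j ζ ξ b2 v := by
        refine ⟨ξ0, r, ?_, (r j).mono (hb2.trans hb1) hrj, ?_⟩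
        · change Loc (fs (rs (M + 1) b2)) _
          rw [rs_succ, hb2a]
          exact Loc.pure fun c hc => sg_mono hc hsgi
        · intro η hη b' hb' r' v' hφ' hr'
          refine hcl η hη b' (hb'.trans (hb2.trans hb1)) r' v' ?_ hr'
          change Loc (fs (rs (M + 1) b')) (fun b => sg K h' η b r')
          have hφ'' : Loc (fs (rs (M + 1) b')) (fun b => sg K (h i) η b r') := hφ'
          refine hφ''.imp fun a' ha' hs => ?_
          rw [rs_succ] at ha'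
          have hap : a' ≤ res M p := by
            refine ha'.trans ?_
            rw [← rs_res hMj p]
            exact rs_mono _ ((hb'.trans (hb2.trans hb1)).trans hb)
          have hs' : ∀ᶠ y in K.U, ∃ v, (h i y M).r (K.ζ y) η a' v ∧ K.d y v = r' := hs
          refine ((hh'.and haC).and hs').mono ?_
          rintro y ⟨⟨g1, g2⟩, w, g3, g4⟩
          exact ⟨w, (g1.2.2 _ _ _ _).2 ⟨fun i' => by rw [g2 i']; exact hap.trans (hresp i'), i, g3⟩, g4⟩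
      have hb2p : b2 ≤ res j p := (hb2.trans hb1).trans hb
      obtain ⟨b3, hb3, h5⟩ := ((hpi i).2 j hj ζ ξ v b2 hb2p ((Run_r hj).2 hrun)).exists
      exact ⟨b3, hb3.trans hb2, h5⟩

end Pool.Agent.MS.It
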