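import Pool.Agent.Lib_helper33.MS.Api
import Pool.Agent.Lib_helper33.MI.Gs
import Pool.Agent.Lib_helper33.MI.LIM

/-! Block GCL, by helper81 -/

namespace Pool.Agent.MS.It

open Cardinal Set Filter Pool.Agent.Lib_helper27

variable {E : Lev} {M : ℕ}

/-- GCL. -/
theorem gcl_pr (K : Crit E M) {m' : K.Y → P E} (hm : K.Mas m') {ι : Type} [LinearOrder ι]
    (t : K.Y → {e : ι → Lv E.c (M + 1) // StrictMono e}) :
    (gsys K hm t).Closed (E.κ 0) := by
  intro I _ hI h hanti p hp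
  rcases isEmpty_or_nonempty I with hE | ⟨⟨i0⟩⟩
  · refine ⟨(⟨m', Set.univ, (mtr_pr K hm).1, by simp⟩ : Cd K m'), fun i => (hE.false i).elim, ?_⟩
    exact (mtr_pr K hm).2 p
  · change I → Cd K m' at h
    obtain ⟨h', h1, h2, h3⟩ := lim_pr K hm hI i0 (fun i => (h i : Cd K m').h) (fun i => (h i : Cd K m').code)
      (fun i i' hii => (h i' : Cd K m').large.mono fun y hy => (hanti hii y hy).2) p hp
    have h4 : ∀ᶠ y in K.U, ∀ i, y ∈ (h i : Cd K m').B ∧ h' y ≤ (h i : Cd K m').h y :=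
      K.comp I _ (hI.trans_le (E.kle (by omega))) fun i => (h i : Cd K m').large.and (h2 i)
    exact ⟨(⟨h', {y | ∀ i, y ∈ (h i : Cd K m').B ∧ h' y ≤ (h i : Cd K m').h y}, h1, h4⟩ : Cd K m'),
      fun i y hy => hy i, h3⟩

end Pool.Agent.MS.It
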