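import Pool.Agent.Lib_helper33.MS.Api
import Pool.Agent.Lib_helper33.MI.REDJ

/-! Block BND, by helper76 -/

/-!
# BND. Names for ordinals are bounded
-/

namespace Pool.Agent.MS.It

open Cardinal Set Filter Pool.Agent.Lib_helper27

variable {E : Lev} {M : ℕ}

/-- BND. Names for ordinals are bounded. -/
theorem bnd_pr (n : ℕ) (hcc : CC E n) {J : Type} (hJ : #J < E.κ n) (p : P E)
    (τ : J → P E → E.Ω → Prop) (hm : ∀ j q r v, r ≤ q → τ j q v → τ j r v)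
    (hf : ∀ j q v w, τ j q v → τ j q w → v = w) :
    ∃ r ≤ p, res n r = res n p ∧ ∃ β < E.c n, ∀ j, ∀ q ≤ r, ∀ v < E.c n, τ j q v → v < β := by
  classical
  obtain ⟨r, hrp, hres, hr⟩ := redJ_pr n hcc hJ p
    (fun j => {q | (∃ v < E.c n, τ j q v) ∨ ∀ r ≤ q, ∀ v < E.c n, ¬ τ j r v})
    (by
      rintro j q (⟨v, hv, h⟩ | h) s hs
      · exact Or.inl ⟨v, hv, hm j q s v hs h⟩
      · exact Or.inr fun r hr v hv => h r (hr.trans hs) v hv)
    (by
      intro j q _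
      by_cases h : ∃ r ≤ q, ∃ v < E.c n, τ j r v
      · obtain ⟨r, hr, v, hv, h⟩ := h
        exact ⟨r, hr, Or.inl ⟨v, hv, h⟩⟩
      · refine ⟨q, le_rfl, Or.inr fun r hr v hv h' => h ⟨r, hr, v, hv, h'⟩⟩)
  refine ⟨r, hrp, hres, ?_⟩
  -- the possible values
  have hV : ∀ j, #{x : Lv E.c n // ∃ a ≤ res n p, τ j (glue n a r) x.1} < E.κ n := by
    intro j
    have h1 : ∀ x : {x : Lv E.c n // ∃ a ≤ res n p, τ j (glue n a r) x.1},
        ∃ a ≤ res n p, τ j (glue n a r) x.1.1 := fun x => x.2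
    choose g hg1 hg2 using h1
    refine hcc _ g fun x y hxy => ?_
    rintro ⟨d, hd1, hd2⟩
    apply hxy
    apply Subtype.ext
    apply Subtype.ext
    have h2 : d ≤ res n r := by
      rw [hres]
      exact hd1.trans (hg1 x)
    exact hf j (glue n d r) _ _ (hm j _ _ _ (glue_mono hd1 h2 le_rfl) (hg2 x))
      (hm j _ _ _ (glue_mono hd2 h2 le_rfl) (hg2 y))
  have hU := small_iUnion (E.kreg n) hJ
    (fun j (x : Lv E.c n) => ∃ a ≤ res n p, τ j (glue n a r) x.1) hV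
  obtain ⟨β, hβ, h1⟩ := bds_pr E n hU (fun x => x.1.1) (fun x => x.1.2)
  refine ⟨β, hβ, fun j q hq v hv hτ => ?_⟩
  have h2 : res n q ≤ res n p := by
    rw [← hres]
    exact hq n
  obtain ⟨b, hb, hb'⟩ := hr j (res n q) h2
  have h3 : glue n b q ≤ q := glue_le hb
  have h4 : glue n b q ≤ glue n b r := glue_mono le_rfl hb hq
  rcases hb' with ⟨w, hw, hw'⟩ | h5
  · have h6 : v = w := hf j _ _ _ (hm j _ _ _ h3 hτ) (hm j _ _ _ h4 hw')
    rw [h6]
    exact h1 ⟨⟨w, hw⟩, j, b, hb.trans h2, hw'⟩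
  · exact (h5 _ h4 v hv (hm j _ _ _ h3 hτ)).elim

end Pool.Agent.MS.It
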