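import Pool.Agent.Lib_helper33.MS.Api
import Pool.Agent.Lib_helper33.MI.TDC
import Pool.Agent.Lib_helper33.MI.GLB
import Pool.Agent.Lib_helper33.MI.BND

/-! Block MAS, by helper76 -/

/-!
# MAS. The master condition and the sequences
-/

namespace Pool.Agent.MS.It

open Cardinal Set Filter Pool.Agent.Lib_helper27

variable {E : Lev} {M : ℕ}

/-- A lower bound of a short sequence with constant restriction to `n`. -/
private theorem mas_glb (n : ℕ) {I : Type} [LinearOrder I] (hI : #I < E.κ n) (p : I → P E)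
    (hp : Antitone p) (m : P E) (hm : ∀ i, p i ≤ m) (hres : ∀ i, res n (p i) = res n m) :
    ∃ q : P E, q ≤ m ∧ res n q = res n m ∧ ∀ i, q ≤ p i := by
  by_cases hne : Nonempty I
  · obtain ⟨i0⟩ := hne
    obtain ⟨q, h1, h2, _⟩ := glb_pr n hI i0 p hp (fun i => (hres i).trans (hres i0).symm)
    exact ⟨q, (h2 i0).trans (hm i0), h1.trans (hres i0), h2⟩
  · exact ⟨m, le_rfl, rfl, fun i => (hne ⟨i⟩).elim⟩

private theorem mas_res (K : Crit E M) (y : K.Y) :
    res (M + 1) (ms K y) = res (M + 1) (top E) := by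
  refine res_congr fun i hi => ?_
  unfold ms Run
  rw [dif_neg (by omega)]
  rfl

/-- MAS. The master condition and the sequences. -/
theorem mas_pr (K : Crit E M) (hcc : CC E (M + 1)) (ι : Type) [LinearOrder ι] [WellFoundedLT ι]
    (hι : #ι < E.κ 0) :
    ∃ m' : K.Y → P E, K.Mas m' ∧ ∃ t : K.Y → ι → Lv E.c (M + 1), ∀ y, StrictMono (t y) ∧
      ∀ F ∈ K.T y, IsNm F → ∀ i i', i < i' → ∀ q ≤ m' y, ∀ v < E.c (M + 1),
        F q (t y i).1 v → v < (t y i').1 := by
  classical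
  have hκ : #ι < E.κ (M + 1) := hι.trans_le (E.kle (by omega))
  have hone : ∀ y : K.Y, ∃ m : P E, m ≤ ms K y ∧ res (M + 1) m = res (M + 1) (ms K y) ∧
      ∃ t : ι → Lv E.c (M + 1), StrictMono t ∧
      ∀ F ∈ K.T y, IsNm F → ∀ i i', i < i' → ∀ q ≤ m, ∀ v < E.c (M + 1),
        F q (t i).1 v → v < (t i').1 := by
    intro y
    have hne : Nonempty (P E × Lv E.c (M + 1)) := ⟨(top E, ⟨E.c 0, E.mono (by omega)⟩)⟩
    obtain ⟨g, hg⟩ := tdc_pr (I := ι) (X := P E × Lv E.c (M + 1))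
      (fun i f x => x.1 ≤ ms K y ∧ res (M + 1) x.1 = res (M + 1) (ms K y) ∧
        ∀ j : {j : ι // j < i}, x.1 ≤ (f j).1 ∧ (f j).2.1 < x.2.1 ∧
          ∀ F ∈ K.T y, IsNm F → ∀ q ≤ x.1, ∀ v < E.c (M + 1), F q (f j).2.1 v → v < x.2.1)
      (by
        intro i f hf
        have hIi : #{j : ι // j < i} < E.κ (M + 1) := (mk_subtype_le _).trans_lt hκ
        obtain ⟨r, hr1, hr2, hr3⟩ := mas_glb (M + 1) hIi (fun j => (f j).1) (by
          intro a b hab
          rcases eq_or_lt_of_le hab with h | h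
          · rw [h]
          · exact ((hf b).2.2 ⟨a.1, h⟩).1) (ms K y) (fun j => (hf j).1) (fun j => (hf j).2.1)
        have hJ : #({j : ι // j < i} × {F : P E → E.Ω → E.Ω → Prop // F ∈ K.T y ∧ IsNm F})
            < E.κ (M + 1) := by
          rw [mk_prod, lift_id, lift_id]
          refine mul_lt_of_lt (E.kinf _) hIi ?_
          exact small_imp (fun F hF => hF.1) (K.Tsmall y)
        obtain ⟨s, hs1, hs2, β, hβ, hs3⟩ := bnd_pr (M + 1) hcc hJ r
          (fun j q v => j.2.1 q (f j.1).2.1 v)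
          (fun j q r' v hr' h => j.2.2.2.1 q r' _ v hr' h)
          (fun j q v w h1 h2 => j.2.2.2.2 q _ v w h1 h2)
        obtain ⟨γ, hγ, h1⟩ := bds_pr E (M + 1) hIi (fun j => (f j).2.1) (fun j => (f j).2.2)
        refine ⟨(s, ⟨max β γ, max_lt hβ hγ⟩), hs1.trans hr1, hs2.trans hr2, fun j => ?_⟩
        refine ⟨hs1.trans (hr3 j), (h1 j).trans_le (le_max_right _ _), fun F hF hN q hq v hv h => ?_⟩
        exact (hs3 (j, ⟨F, hF, hN⟩) q hq v hv h).trans_le (le_max_left _ _))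
    obtain ⟨m, hm1, hm2, hm3⟩ := mas_glb (M + 1) hκ (fun i => (g i).1) (by
      intro a b hab
      rcases eq_or_lt_of_le hab with h | h
      · rw [h]
      · exact ((hg b).2.2 ⟨a, h⟩).1) (ms K y) (fun i => (hg i).1) (fun i => (hg i).2.1)
    refine ⟨m, hm1, hm2, fun i => (g i).2, ?_, ?_⟩
    · intro i i' hi
      exact ((hg i').2.2 ⟨i, hi⟩).2.1
    · intro F hF hN i i' hi q hq v hv h
      exact ((hg i').2.2 ⟨i, hi⟩).2.2 F hF hN q (hq.trans (hm3 i')) v hv h
  choose m' h1 h2 t h3 h4 using hone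
  exact ⟨m', ⟨h1, fun y => (h2 y).trans (mas_res K y)⟩, t, fun y => ⟨h3 y, h4 y⟩⟩

end Pool.Agent.MS.It
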