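import Pool.Agent.Lib_helper33.MI.CC
import Pool.Agent.Lib_helper33.MI.COL
import Pool.Agent.Lib_helper33.MI.CRT
import Pool.Agent.Lib_helper33.MI.MAS
import Pool.Agent.Lib_helper33.MI.GCL
import Pool.Agent.Lib_helper33.MI.DEC
import Pool.Agent.Lib_helper33.MI.CLO
import Pool.Agent.Lib_helper33.MI.CNV
import Pool.Agent.Lib_helper33.MI.BDL

namespace Pool.Agent.MS.It

open Cardinal Set Filter Pool.Agent.Lib_helper27

/-- LEV. The levels of the iteration from the cardinals of the interface. -/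
def lev {Ω : Type} [LinearOrder Ω] [WellFoundedLT Ω] {c : ℕ → Ω} {l : ℕ} (hc : Cards c l) : Lev where
  Ω := Ω
  c n := c (l + 1 + n)
  mono := fun m n h => hc.mono (by omega)
  init := fun n x hx => hc.init _ x hx
  reg := fun n => hc.reg _
  inacc := fun n μ h => hc.inacc (l + 1 + (n + 1)) (by omega) μ h

/-- PKG. The iteration satisfies the hypotheses of the core. -/
theorem pkg_pr {Ω : Type} [LinearOrder Ω] [WellFoundedLT Ω] {c : ℕ → Ω} {l : ℕ} (hc : Cards c l)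
    (hS : ∀ n, l + 2 ≤ n → Supercompact #(Lv c n)) : Pkg (It.P (lev hc)) c l := by
  have hκ : ∀ n, (lev hc).κ n = #(Lv c (l + 1 + n)) := fun n => rfl
  have hS' : ∀ n, Supercompact ((lev hc).κ (n + 1)) := fun n => hS (l + 1 + (n + 1)) (by omega)
  have hcc : ∀ n, CC (lev hc) n := cc_pr hS'
  have hlt : #(Lv c l) < (lev hc).κ 0 := hc.init (l + 1) _ (hc.mono (by omega))
  have hcl : Cl (It.P (lev hc)) #(Lv c l) := by
    intro I _ _ hI f hf
    by_cases hne : Nonempty I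
    · obtain ⟨i0⟩ := hne
      obtain ⟨q, _, hq, _⟩ := glb_pr 0 (hI.trans_lt hlt) i0 f hf (fun i => rfl)
      exact ⟨q, hq⟩
    · exact ⟨top _, fun i => (hne ⟨i⟩).elim⟩
  have hlow := bdl_pr hc hcl
  refine ⟨hcl, ?_, ?_, ?_⟩
  · intro m
    rcases le_total m (l + 1) with hm | hm
    · exact hlow m hm
    · obtain ⟨n, rfl⟩ := Nat.exists_eq_add_of_le hm
      intro D hD p g hg
      obtain ⟨r, hr, _, β, hβ, h1⟩ := bnd_pr (E := lev hc) n (hcc n) (J := D) hD p
        (fun d q v => ∃ hv : v < c (l + 1 + n), g.r q d ⟨v, hv⟩)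
        (fun d q r v hr ⟨hv, h⟩ => ⟨hv, g.mono hr h⟩)
        (fun d q v w ⟨hv, h⟩ ⟨hw, h'⟩ => congrArg Subtype.val (g.uniq h h'))
      refine ⟨r, hr, ⟨β, hβ⟩, fun r' hr' d v h => ?_⟩
      exact (h1 d r' hr' v.1 v.2 ⟨v.2, h⟩).le
  · intro n hn x hx1 hx2
    obtain ⟨m, rfl⟩ := Nat.exists_eq_add_of_le hn
    have h0 : ∃ y, y < x := by
      have h1 : #(Lv c 0) = ℵ₀ := hc.zero
      have h2 : Nonempty (Lv c 0) := by
        rw [← mk_ne_zero_iff, h1]
        exact aleph0_ne_zero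
      obtain ⟨y⟩ := h2
      exact ⟨y.1, (y.2.trans_le (hc.mono.monotone (Nat.zero_le _))).trans_le hx1⟩
    exact col_pr (E := lev hc) m x h0 hx2
  · intro n hn j hj
    obtain ⟨M, rfl⟩ : ∃ M, n = l + 1 + (M + 1) := ⟨n - (l + 2), by omega⟩
    obtain ⟨K⟩ := crt_pr (lev hc) M (hS' M)
    have hι : #(Lv c j) < (lev hc).κ 0 := hc.init (l + 1) _ (hc.mono (by omega))
    obtain ⟨m', hm, t, ht⟩ := mas_pr K (hcc (M + 1)) (Lv c j) hι
    let t' : K.Y → {e : Lv c j → Lv (lev hc).c (M + 1) // StrictMono e} := fun y => ⟨t y, (ht y).1⟩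
    have h1 := gcl_pr K hm t'
    have h2 := dec_pr K (hcc M) hm t'
    have h3 := clo_pr K hm t' (fun y => (ht y).2)
    have e1 : l + 1 + (M + 1) - 2 = l + M := by omega
    have e2 : l + 1 + (M + 1) - 1 = l + 1 + M := by omega
    rw [e1, e2]
    refine cnv_pr (c := c) (j := j) (n := l + 1 + (M + 1)) (gsys K hm t') hlt ?_ ?_ hcl h1 h2 h3
    · exact hc.init (l + 1 + M) _ (hc.mono (by omega))
    · exact hc.init (l + 1 + (M + 1)) _ (hc.mono (by omega))

end Pool.Agent.MS.It
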