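import Pool.Agent.Lib_helper33.MS.Api
import Pool.Agent.Lib_helper33.MI.KEB

namespace Pool.Agent.MS.It

open Cardinal Set Filter Pool.Agent.Lib_helper27

variable {E : Lev} {M : ℕ}

/-- The level `M` name of the appended code. -/
theorem app_name (p g : P E) (a0 : A E M) (γ β z v0 : E.Ω) (hz : z < E.c (M + 1)) (hβ : β < E.c M)
    (hv : v0 < z) (hγ : γ < z) (hg : ∀ a v, ¬ (g M).r z β a v) :
    ∃ q : Rl E M (A E M), ∀ ζ ξ a v, q.r ζ ξ a v ↔ a ≤ a0 ∧ ((ζ < γ ∧ (p M).r ζ ξ a v) ∨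
      (γ ≤ ζ ∧ (g M).r ζ ξ a v) ∨ (ζ = z ∧ ξ = β ∧ v = v0)) := by
  refine ⟨⟨fun ζ ξ a v => a ≤ a0 ∧ ((ζ < γ ∧ (p M).r ζ ξ a v) ∨
      (γ ≤ ζ ∧ (g M).r ζ ξ a v) ∨ (ζ = z ∧ ξ = β ∧ v = v0)), ?_, ?_, ?_, ?_⟩,
    fun ζ ξ a v => Iff.rfl⟩
  · rintro ζ ξ a b v hb ⟨h1, h2⟩
    refine ⟨hb.trans h1, ?_⟩
    rcases h2 with h2 | h2 | h2
    · exact Or.inl ⟨h2.1, (p M).mono hb h2.2⟩
    · exact Or.inr (Or.inl ⟨h2.1, (g M).mono hb h2.2⟩)
    · exact Or.inr (Or.inr h2)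
  · rintro ζ ξ a b c v w ha hb ⟨_, h2⟩ ⟨_, h4⟩
    rcases h2 with h2 | h2 | h2 <;> rcases h4 with h4 | h4 | h4
    · exact (p M).func ha hb h2.2 h4.2
    · exact absurd h2.1 (not_lt.2 h4.1)
    · rw [h4.1] at h2
      exact absurd h2.1 (not_lt.2 hγ.le)
    · exact absurd h4.1 (not_lt.2 h2.1)
    · exact (g M).func ha hb h2.2 h4.2
    · obtain ⟨rfl, rfl, _⟩ := h4
      exact (hg _ _ h2.2).elim
    · rw [h2.1] at h4
      exact absurd h4.1 (not_lt.2 hγ.le)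
    · obtain ⟨rfl, rfl, _⟩ := h2
      exact (hg _ _ h4.2).elim
    · rw [h2.2.2, h4.2.2]
  · rintro ζ ξ a v ⟨_, h2⟩
    rcases h2 with h2 | h2 | h2
    · exact (p M).val h2.2
    · exact (g M).val h2.2
    · obtain ⟨rfl, rfl, rfl⟩ := h2
      exact ⟨hv, hz, hβ⟩
  · have h3 : #{x : E.Ω × E.Ω // x = (z, β)} < E.κ M := by
      have : #{x : E.Ω × E.Ω // x = (z, β)} = 1 := by simp
      rw [this]
      exact one_lt_aleph0.trans_le (E.kinf M)
    refine small_imp ?_ (small_or (E.kinf M) (p M).small (small_or (E.kinf M) (g M).small h3))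
    rintro ⟨ζ, ξ⟩ ⟨a, v, _, h2⟩
    rcases h2 with h2 | h2 | h2
    · exact Or.inl ⟨a, v, h2.2⟩
    · exact Or.inr (Or.inl ⟨a, v, h2.2⟩)
    · exact Or.inr (Or.inr (Prod.ext h2.1 h2.2.1))

theorem app_pr (K : Crit E M) {m' : K.Y → P E} (hm : K.Mas m') {h : K.Y → P E}
    (hh : IsCode K m' h) {p : P E} (hp : p ≤ pr K h) :
    ∃ h', IsCode K m' h' ∧ (∀ᶠ y in K.U, h' y ≤ h y) ∧ pr K h' ≤ p := by
  classical
  obtain ⟨β, hβ, hgap⟩ := hh.gap
  obtain ⟨γ1, hγ1, _, _, hs1⟩ := sup_pr (p M)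
  obtain ⟨γ2, hγ2, _, _, hs2⟩ := sup_pr (bC K h)
  obtain ⟨γ, hγ, hs1', hs2'⟩ : ∃ γ < E.c (M + 1), (∀ ζ ξ a v, (p M).r ζ ξ a v → ζ < γ) ∧
      ∀ ζ ξ a v, (bC K h).r ζ ξ a v → ζ < γ :=
    ⟨max γ1 γ2, max_lt hγ1 hγ2, fun ζ ξ a v h1 => (hs1 _ _ _ _ h1).1.trans_le (le_max_left _ _),
      fun ζ ξ a v h1 => (hs2 _ _ _ _ h1).1.trans_le (le_max_right _ _)⟩
  set a0 : A E M := res M p with ha0
  have hpM := A_le_def.1 (hp (M + 1))
  rw [fs_res, fs_res, pr_resn, sn_res, sn_res, pr_coord] at hpM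
  obtain ⟨hp0, hp1⟩ := hpM
  have hp2 : TL (M + 1) p (Run (muS K h)) := (le_glue_iff.1 hp).2
  -- good indices
  let good : K.Y → Prop := fun y => γ < K.ζ y ∧ (∃ v < K.ζ y, K.d y v = p) ∧
    res M (h y) = aC K h ∧ ((∀ ξ < β, Loc (res M (h y)) fun a => ∃ v, (h y M).r (K.ζ y) ξ a v) ∧
    ∀ ξ, β ≤ ξ → ∀ a v, ¬ (h y M).r (K.ζ y) ξ a v) ∧
    (∀ ζ < γ, ∀ (ξ : E.Ω) (a : A E M) (v : E.Ω), (bC K h).r ζ ξ a v ↔ (h y M).r ζ ξ a v)
  have hgood : ∀ᶠ y in K.U, good y := by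
    filter_upwards [K.hζ2 γ hγ, K.hd p, aC_spec K h, hgap, keb_pr K h γ hγ] with y h1 h2 h3 h4 h5
    exact ⟨h1, h2, h3, h4, h5⟩
  have hq : ∀ y, good y → ∃ (q : Rl E M (A E M)) (v0 : E.Ω), K.d y v0 = p ∧ ∀ ζ ξ a v,
      q.r ζ ξ a v ↔ a ≤ a0 ∧ ((ζ < γ ∧ (p M).r ζ ξ a v) ∨ (γ ≤ ζ ∧ (h y M).r ζ ξ a v) ∨
        (ζ = K.ζ y ∧ ξ = β ∧ v = v0)) := by
    rintro y ⟨h1, ⟨v0, h2, h2'⟩, h3, h4, h5⟩
    obtain ⟨q, hq⟩ := app_name p (h y) a0 γ β (K.ζ y) v0 (K.hζ y) hβ h2 h1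
      (fun a v => h4.2 β le_rfl a v)
    exact ⟨q, v0, h2', hq⟩
  choose q v0 hv0 hq using hq
  let h' : K.Y → P E := fun y => if hy : good y then glue (M + 1) (mk a0 (q y hy)) (h y) else h y
  have hh' : ∀ y (hy : good y), h' y = glue (M + 1) (mk a0 (q y hy)) (h y) := fun y hy => dif_pos hy
  have e1 : ∀ y (hy : good y), res M (h' y) = a0 := fun y hy => by rw [hh' y hy, glue_mk_resn]
  have e2 : ∀ y (hy : good y), h' y M = q y hy := fun y hy => by rw [hh' y hy, glue_mk_coord]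
  have e3 : ∀ y (hy : good y), h' y ≤ h y := by
    intro y hy
    rw [hh' y hy]
    refine glue_le (A_le_def.2 ⟨?_, ?_⟩)
    · rw [fs_mk, fs_res, hy.2.2.1]
      exact hp0
    · intro ζ ξ v a ha h1
      rw [fs_mk] at ha
      rw [sn_res] at h1
      rw [sn_mk]
      rcases lt_or_ge ζ γ with hζ | hζ
      · have h2 := (hy.2.2.2.2 ζ hζ ξ a v).2 h1
        refine (hp1 ζ ξ v a ha h2).imp fun c hc h3 => ?_
        exact (hq y hy ζ ξ c v).2 ⟨hc.trans ha, Or.inl ⟨hζ, h3⟩⟩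
      · exact Loc.pure fun c hc => (hq y hy ζ ξ c v).2
          ⟨hc.trans ha, Or.inr (Or.inl ⟨hζ, (h y M).mono hc h1⟩)⟩
  have eaC : aC K h' = a0 := by
    obtain ⟨y, hy, h1⟩ := (hgood.and (aC_spec K h')).exists
    rw [← h1, e1 y hy]
  have sg1 : ∀ a ≤ a0, sg K h' β a p := by
    intro a ha
    refine hgood.mono fun y hy => ⟨v0 y hy, ?_, hv0 y hy⟩
    rw [e2 y hy, hq]
    exact ⟨ha, Or.inr (Or.inr ⟨rfl, rfl, rfl⟩)⟩
  have sg2 : ∀ η < β, ∀ a ≤ a0, ∀ r, sg K h' η a r ↔ sg K h η a r := by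
    intro η hη a ha r
    refine eventually_congr (hgood.mono fun y hy => exists_congr fun v => ?_)
    rw [e2 y hy, hq]
    constructor
    · rintro ⟨⟨_, h1 | h1 | h1⟩, h2⟩
      · exact absurd (h1.1.trans hy.1) (lt_irrefl _)
      · exact ⟨h1.2, h2⟩
      · exact absurd h1.2.1 hη.ne
    · rintro ⟨h1, h2⟩
      exact ⟨⟨ha, Or.inr (Or.inl ⟨hy.1.le, h1⟩)⟩, h2⟩
  refine ⟨h', ⟨?_, ?_⟩, hgood.mono e3, ?_⟩
  · filter_upwards [hgood, hh.le] with y h1 h2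
    exact (e3 y h1).trans h2
  · -- the next position
    have hne : {x : E.Ω | β < x}.Nonempty := ⟨E.c M, hβ⟩
    obtain ⟨β', hβ', hmin⟩ := WellFounded.has_min (wellFounded_lt (α := E.Ω)) _ hne
    have hβ'2 : β' < E.c M := by
      obtain ⟨x, hx, h1⟩ := bds_pr E M (I := Unit)
        (by rw [mk_unit]; exact one_lt_aleph0.trans_le (E.kinf M)) (fun _ => β) (fun _ => hβ)
      exact (not_lt.1 (hmin x (h1 ()))).trans_lt hx
    refine ⟨β', hβ'2, hgood.mono fun y hy => ⟨fun ξ hξ => ?_, fun ξ hξ a v h1 => ?_⟩⟩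
    · rw [e1 y hy, e2 y hy]
      have hξ2 : ξ ≤ β := not_lt.1 fun h => hmin ξ h hξ
      rcases hξ2.lt_or_eq with h1 | rfl
      · have h2 := hy.2.2.2.1.1 ξ h1
        rw [hy.2.2.1] at h2
        refine (h2.mono hp0).imp fun a ha ⟨v, h3⟩ => ⟨v, (hq y hy _ _ _ _).2
          ⟨ha, Or.inr (Or.inl ⟨hy.1.le, h3⟩)⟩⟩
      · exact Loc.pure fun a ha => ⟨v0 y hy, (hq y hy _ _ _ _).2
          ⟨ha, Or.inr (Or.inr ⟨rfl, rfl, rfl⟩)⟩⟩
    · rw [e2 y hy, hq] at h1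
      rcases h1.2 with h2 | h2 | h2
      · exact absurd (h2.1.trans hy.1) (lt_irrefl _)
      · exact hy.2.2.2.1.2 ξ (hβ'.le.trans hξ) _ _ h2.2
      · rw [h2.2.1] at hξ
        exact absurd hβ' (not_lt.2 hξ)
  · -- the projection
    have key : ∀ j, M + 1 ≤ j → res j (pr K h') ≤ res j p := by
      intro j hj
      induction j, hj using Nat.le_induction with
      | base =>
        refine A_le_def.2 ⟨?_, ?_⟩
        · rw [fs_res, fs_res, pr_resn, eaC]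
        · intro ζ ξ v a ha h1
          rw [sn_res] at h1
          rw [fs_res, pr_resn, eaC] at ha
          rw [sn_res, pr_coord]
          refine Loc.pure fun c hc => hgood.mono fun y hy => ?_
          rw [e2 y hy, hq]
          exact ⟨hc.trans ha, Or.inl ⟨hs1' _ _ _ _ h1, (p M).mono hc h1⟩⟩
      | succ j hj ih =>
        refine res_succ_le.2 ⟨ih, ?_⟩
        intro ζ ξ v b hb h1 b1 hb1
        rw [pr_ge K h' hj]
        simp only [Run_r hj]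
        have h1' : (p j).r ζ ξ b1 v := (p j).mono hb1 h1
        have hr1 : ∀ b' ≤ b1, rs M b' ≤ a0 := by
          intro b' hb'
          have h2 := rs_mono M ((hb'.trans hb1).trans hb)
          rw [rs_res (by omega), pr_resn, eaC] at h2
          exact h2
        have hφ : (muS K h').φ (rs (M + 1) b1) β p :=
          Loc.pure fun c hc => sg1 c (hc.trans (hr1 b1 le_rfl))
        by_cases hex : ∃ η, η < β ∧ ∃ b' ≤ b1, ∃ r' v', (muS K h').φ (rs (M + 1) b') η r' ∧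
            (r' j).r ζ ξ b' v'
        · obtain ⟨η, ⟨hη, b', hb', r', v', h2, h3⟩, hmin⟩ :=
            WellFounded.has_min (wellFounded_lt (α := E.Ω)) {η | η < β ∧ ∃ b' ≤ b1, ∃ r' v',
              (muS K h').φ (rs (M + 1) b') η r' ∧ (r' j).r ζ ξ b' v'} hex
          have h4 : RunR (muS K h') j ζ ξ b' v' :=
            ⟨η, r', h2, h3, fun η' hη' b'' hb'' r'' v'' h5 h6 =>
              hmin η' ⟨hη'.trans hη, b'', hb''.trans hb', r'', v'', h5, h6⟩ hη'⟩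
          have h5 : RunR (muS K h) j ζ ξ b' v' := by
            refine ⟨η, r', ?_, h3, ?_⟩
            · exact h2.imp fun c hc h6 => (sg2 η hη c (hc.trans (hr1 b' hb')) r').1 h6
            · intro η' hη' b'' hb'' r'' v'' h6 h7
              refine hmin η' ⟨hη'.trans hη, b'', hb''.trans hb', r'', v'', ?_, h7⟩ hη'
              exact h6.imp fun c hc h8 =>
                (sg2 η' (hη'.trans hη) c (hc.trans (hr1 b'' (hb''.trans hb'))) r'').2 h8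
          have h6 : Loc b' (fun c => (p j).r ζ ξ c v') :=
            hp2 j hj ζ ξ v' b' (((hb'.trans hb1).trans hb).trans ih) ((Run_r hj).2 h5)
          obtain ⟨c, hc, h7⟩ := h6.exists
          have : v' = v := (p j).func le_rfl (hc.trans hb') h7 h1'
          rw [this] at h4
          exact ⟨b', hb', h4⟩
        · refine ⟨b1, le_rfl, β, p, hφ, h1', ?_⟩
          intro η hη b' hb' r' v' h2 h3
          exact hex ⟨η, hη, b', hb', r', v', h2, h3⟩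
    intro n
    rcases le_total (M + 1) n with h1 | h1
    · exact key n h1
    · exact res_le_of_le h1 (key (M + 1) le_rfl)

end Pool.Agent.MS.It
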