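import Pool.Agent.Lib_helper33.MS.Api

/-! Block CC, by helper81 -/

namespace Pool.Agent.MS.It

open Cardinal Set Filter Pool.Agent.Lib_helper27

variable {E : Lev} {M : ℕ}

theorem cc_const {Y : Type} {U : Ultrafilter Y} {μ : Cardinal.{0}}
    (comp : ∀ (I : Type) (Q : I → Y → Prop), #I < μ → (∀ i, ∀ᶠ y in U, Q i y) →
      ∀ᶠ y in U, ∀ i, Q i y) {Z : Type} (hZ : #Z < μ) (f : Y → Z) :
    ∃ z, ∀ᶠ y in U, f y = z := by
  by_contra hcon
  push Not at hcon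
  have h1 : ∀ z, ∀ᶠ y in U, f y ≠ z := hcon
  obtain ⟨y, hy⟩ := (comp Z _ hZ h1).exists
  exact hy _ rfl

/-- The limit of names. -/
def cc_lim (n : ℕ) {Y : Type} (U : Ultrafilter Y)
    (comp : ∀ (I : Type) (Q : I → Y → Prop), #I < E.κ (n + 1) → (∀ i, ∀ᶠ y in U, Q i y) →
      ∀ᶠ y in U, ∀ i, Q i y) (q : Y → Rl E n (A E n)) : Rl E n (A E n) where
  r ζ ξ a v := ∀ᶠ y in U, (q y).r ζ ξ a v
  mono hb h1 := h1.mono fun y h2 => (q y).mono hb h2
  func := by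
    intro ζ ξ a b c v w ha hb h1 h2
    obtain ⟨y, h3, h4⟩ := (h1.and h2).exists
    exact (q y).func ha hb h3 h4
  val := by
    intro ζ ξ a v h1
    obtain ⟨y, h2⟩ := h1.exists
    exact (q y).val h2
  small := by
    by_contra hcon
    rw [not_lt] at hcon
    obtain ⟨S, hS⟩ := (le_mk_iff_exists_subset (s := {x : E.Ω × E.Ω |
      ∃ a v, ∀ᶠ y in U, (q y).r x.1 x.2 a v})).1 hcon
    have h1 : ∀ x : S, ∀ᶠ y in U, ∃ a v, (q y).r x.1.1 x.1.2 a v := by
      intro x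
      obtain ⟨a, v, h2⟩ := hS.1 x.2
      exact h2.mono fun y h3 => ⟨a, v, h3⟩
    obtain ⟨y, hy⟩ := (comp S _ (by rw [hS.2]; exact E.klt (by omega)) h1).exists
    have h3 : #S ≤ #{x : E.Ω × E.Ω // ∃ a v, (q y).r x.1 x.2 a v} :=
      mk_le_of_injective (f := fun x : S => ⟨x.1, hy x⟩) (by
        intro a b hab
        apply Subtype.ext
        exact congrArg (fun z : {x : E.Ω × E.Ω // ∃ a v, (q y).r x.1 x.2 a v} => z.1) hab)
    rw [hS.2] at h3
    exact absurd (q y).small (not_lt.2 h3)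

/-- The union of two compatible names. -/
def cc_un {n : ℕ} (q q' : Rl E n (A E n))
    (h : ∀ ζ ξ a b v w, q.r ζ ξ a v → q'.r ζ ξ b w → q.r ζ ξ b w) : Rl E n (A E n) where
  r ζ ξ a v := q.r ζ ξ a v ∨ q'.r ζ ξ a v
  mono hb h1 := h1.imp (q.mono hb) (q'.mono hb)
  func := by
    rintro ζ ξ a b c v w ha hb (h1 | h1) (h2 | h2)
    · exact q.func ha hb h1 h2
    · exact q.func ha hb h1 (h _ _ _ _ _ _ h1 h2)
    · exact q.func ha hb (h _ _ _ _ _ _ h2 h1) h2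
    · exact q'.func ha hb h1 h2
  val := by
    rintro ζ ξ a v (h1 | h1)
    · exact q.val h1
    · exact q'.val h1
  small := by
    refine small_imp ?_ (small_or (E.kinf n) q.small q'.small)
    rintro x ⟨a, v, h1 | h1⟩
    · exact Or.inl ⟨a, v, h1⟩
    · exact Or.inr ⟨a, v, h1⟩

theorem cc_row (n : ℕ) {Y : Type} (U : Ultrafilter Y)
    (comp : ∀ (I : Type) (Q : I → Y → Prop), #I < E.κ (n + 1) → (∀ i, ∀ᶠ y in U, Q i y) →
      ∀ᶠ y in U, ∀ i, Q i y) (q : Y → Rl E n (A E n)) (ζ : E.Ω) (hζ : ζ < E.c (n + 1)) :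
    ∀ᶠ y in U, ∀ ξ a v, (cc_lim n U comp q).r ζ ξ a v ↔ (q y).r ζ ξ a v := by
  have hinf := E.kinf (n + 1)
  have hX : #(Lv E.c n × (A E n × {v : E.Ω // v < ζ})) < E.κ (n + 1) := by
    simp only [mk_prod, lift_id]
    exact mul_lt_of_lt hinf (E.klt (by omega)) (mul_lt_of_lt hinf (size E n) (E.kinit _ hζ))
  have h1 := comp (Lv E.c n × (A E n × {v : E.Ω // v < ζ}))
    (fun x y => (cc_lim n U comp q).r ζ x.1.1 x.2.1 x.2.2.1 ↔ (q y).r ζ x.1.1 x.2.1 x.2.2.1) hX (by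
      intro x
      by_cases hx : ∀ᶠ y in U, (q y).r ζ x.1.1 x.2.1 x.2.2.1
      · exact hx.mono fun y hy => ⟨fun _ => hy, fun _ => hx⟩
      · exact (Ultrafilter.eventually_not.2 hx).mono fun y hy =>
          ⟨fun h => (hx h).elim, fun h => (hy h).elim⟩)
  refine h1.mono fun y hy ξ a v => ⟨fun h => ?_, fun h => ?_⟩
  · have hv := (cc_lim n U comp q).val h
    exact (hy (⟨ξ, hv.2.2⟩, (a, ⟨v, hv.1⟩))).1 h
  · have hv := (q y).val h
    exact (hy (⟨ξ, hv.2.2⟩, (a, ⟨v, hv.1⟩))).2 h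

/-- CC. The chain condition. -/
theorem cc_pr (hS : ∀ n, Supercompact (E.κ (n + 1))) (n : ℕ) : CC E n := by
  classical
  intro I g hg
  rcases n with _ | n
  · have hsub : Subsingleton I := by
      constructor
      intro i j
      by_contra hij
      exact hg i j hij ⟨(), le_rfl, le_rfl⟩
    exact (Cardinal.le_one_iff_subsingleton.2 hsub).trans_lt (one_lt_aleph0.trans_le (E.kinf 0))
  · by_contra hcon
    rw [not_lt] at hcon
    obtain ⟨-, hS⟩ := hS n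
    obtain ⟨U, hcomp, hfine, hsm, hnrm⟩ := hS (I ⊕ E.Ω)
    have comp : ∀ (J : Type) (Q : J → Set (I ⊕ E.Ω) → Prop), #J < E.κ (n + 1) →
        (∀ i, ∀ᶠ y in U, Q i y) → ∀ᶠ y in U, ∀ i, Q i y := by
      intro J Q hJ hQ
      have h1 := hcomp J (fun i => {y | Q i y}) hJ hQ
      refine mem_of_superset h1 fun y hy i => ?_
      exact mem_iInter.1 hy i
    have hne : Nonempty I := by
      rw [← mk_ne_zero_iff]
      intro h0
      rw [h0] at hcon
      exact absurd (E.kpos (n + 1)) (not_lt.2 hcon)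
    have hw : ∀ y : Set (I ⊕ E.Ω), #y < E.κ (n + 1) → ∃ i, Sum.inl i ∉ y := by
      intro y hy
      by_contra hcon2
      push Not at hcon2
      have h1 : #I ≤ #y := mk_le_of_injective (f := fun i => (⟨Sum.inl i, hcon2 i⟩ : y)) (by
        intro i j hij
        exact Sum.inl_injective (congrArg Subtype.val hij))
      exact absurd (h1.trans_lt hy) (not_lt.2 hcon)
    let w : Set (I ⊕ E.Ω) → I := fun y => if h : #y < E.κ (n + 1) then (hw y h).choose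
      else hne.some
    have hwy : ∀ y : Set (I ⊕ E.Ω), #y < E.κ (n + 1) → Sum.inl (w y) ∉ y := by
      intro y hy
      have : w y = (hw y hy).choose := dif_pos hy
      rw [this]
      exact (hw y hy).choose_spec
    obtain ⟨b, hb⟩ := cc_const comp (size E n) fun y => fs (g (w y))
    let q : Set (I ⊕ E.Ω) → Rl E n (A E n) := fun y => sn (g (w y))
    let L := cc_lim n U comp q
    -- (1)
    have h1 : ∀ᶠ y in U, ∀ z, Sum.inr z ∈ y → z < E.c (n + 1) → ∀ ξ a v,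
        L.r z ξ a v ↔ (q y).r z ξ a v := by
      by_contra hcon1
      have hcon1 := Ultrafilter.eventually_not.2 hcon1
      let f : Set (I ⊕ E.Ω) → (I ⊕ E.Ω) := fun y =>
        if h : ∃ z, Sum.inr z ∈ y ∧ z < E.c (n + 1) ∧ ¬ ∀ ξ a v, L.r z ξ a v ↔ (q y).r z ξ a v
        then Sum.inr h.choose else Sum.inl hne.some
      have hf : ∀ᶠ y in U, ∃ z, f y = Sum.inr z ∧ Sum.inr z ∈ y ∧ z < E.c (n + 1) ∧
          ¬ ∀ ξ a v, L.r z ξ a v ↔ (q y).r z ξ a v := by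
        refine hcon1.mono fun y hy => ?_
        push Not at hy
        have h : ∃ z, Sum.inr z ∈ y ∧ z < E.c (n + 1) ∧
            ¬ ∀ ξ a v, L.r z ξ a v ↔ (q y).r z ξ a v := by
          obtain ⟨z, hz1, hz2, ξ, a, v, h⟩ := hy
          refine ⟨z, hz1, hz2, fun hall => ?_⟩
          have := hall ξ a v
          tauto
        refine ⟨h.choose, dif_pos h, h.choose_spec⟩
      have hf2 : ∀ᶠ y in U, f y ∈ y := hf.mono fun y ⟨z, h1, h2, _⟩ => by rw [h1]; exact h2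
      obtain ⟨x, hx⟩ := hnrm f hf2
      have hx : ∀ᶠ y in U, f y = x := hx
      obtain ⟨y0, ⟨z, h1, h2, h3, h4⟩, h5⟩ := (hf.and hx).exists
      have hrow := cc_row n U comp q z h3
      obtain ⟨y1, ⟨⟨z', h1', h2', h3', h4'⟩, h5'⟩, h6'⟩ := ((hf.and hx).and hrow).exists
      have : z' = z := by
        rw [h5'] at h1'
        rw [h5] at h1
        exact Sum.inr_injective (h1'.symm.trans h1)
      subst this
      exact h4' h6'
    -- (2)
    have h2 : ∀ᶠ (y : Set (I ⊕ E.Ω)) in U,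
        ∀ x : {x : E.Ω × E.Ω // ∃ a v, L.r x.1 x.2 a v}, Sum.inr x.1.1 ∈ y :=
      comp {x : E.Ω × E.Ω // ∃ a v, L.r x.1 x.2 a v}
        (fun x (y : Set (I ⊕ E.Ω)) => Sum.inr x.1.1 ∈ y) (L.small.trans (E.klt (by omega)))
        fun x => hfine (Sum.inr x.1.1)
    have h3 : ∀ᶠ (y : Set (I ⊕ E.Ω)) in U, #y < E.κ (n + 1) := hsm
    obtain ⟨y, ⟨⟨hy1, hy2⟩, hy3⟩, hy4⟩ := (((h1.and h2).and h3).and hb).exists
    have h5 : ∀ᶠ (y' : Set (I ⊕ E.Ω)) in U, Sum.inl (w y) ∈ y' := hfine _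
    have h6 : ∀ᶠ (y' : Set (I ⊕ E.Ω)) in U, ∀ x : {x : E.Ω × E.Ω // ∃ a v, (q y).r x.1 x.2 a v},
        Sum.inr x.1.1 ∈ y' :=
      comp {x : E.Ω × E.Ω // ∃ a v, (q y).r x.1 x.2 a v}
        (fun x (y : Set (I ⊕ E.Ω)) => Sum.inr x.1.1 ∈ y) ((q y).small.trans (E.klt (by omega)))
        fun x => hfine (Sum.inr x.1.1)
    obtain ⟨y', ⟨⟨⟨hy1', hy3'⟩, hy4'⟩, hy5'⟩, hy6'⟩ :=
      ((((h1.and h3).and hb).and h5).and h6).exists
    have hne' : w y ≠ w y' := by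
      intro h
      rw [h] at hy5'
      exact hwy y' hy3' hy5'
    have hcomp' : ∀ ζ ξ a b v w, (q y).r ζ ξ a v → (q y').r ζ ξ b w → (q y).r ζ ξ b w := by
      intro ζ ξ a b v w' h7 h8
      have h9 : Sum.inr ζ ∈ y' := hy6' ⟨(ζ, ξ), a, v, h7⟩
      have hζ : ζ < E.c (n + 1) := ((q y).val h7).2.1
      have h10 : L.r ζ ξ b w' := (hy1' ζ h9 hζ ξ b w').2 h8
      have h11 : Sum.inr ζ ∈ y := hy2 ⟨(ζ, ξ), b, w', h10⟩
      exact (hy1 ζ h11 hζ ξ b w').1 h10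
    refine hg (w y) (w y') hne' ⟨mk b (cc_un (q y) (q y') hcomp'), ?_, ?_⟩
    · rw [A_le_def]
      refine ⟨by rw [fs_mk, hy4], fun ζ ξ v a _ h => Loc.pure fun c hc => ?_⟩
      exact Or.inl ((q y).mono hc h)
    · rw [A_le_def]
      refine ⟨by rw [fs_mk, hy4'], fun ζ ξ v a _ h => Loc.pure fun c hc => ?_⟩
      exact Or.inr ((q y').mono hc h)

end Pool.Agent.MS.It
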